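import Mathlib
import Pool.Agent.H563R3.Small

/-!
# Rota-Baxter operators on `H(V, q)`: general lemmas
-/

namespace JRB3

open JRB JRB2 Matrix Module

set_option linter.unusedSectionVars false

section gen

variable {F : Type*} [Field F] [CharZero F] {A : Type*} [Ring A] [Algebra F A]
variable (N : A →ₗ[F] A) (hN : IsRB F (jmul F) N)

theorem jmul_self (x : A) : jmul F x x = x * x := jmul_of_commute rfl

theorem jmul_sub (x y z : A) : jmul F x (y - z) = jmul F x y - jmul F x z := by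
  unfold jmul; rw [mul_sub, sub_mul, ← smul_sub]; congr 1; abel

include hN

/-- the kernel is a module over the image -/
theorem ker_mod (x k : A) (hk : N k = 0) : N (jmul F (N x) k) = 0 := by
  have h := hN x k
  have e : jmul F x (0 : A) = 0 := by unfold jmul; simp
  have e' : jmul F (N x) (0 : A) = 0 := by unfold jmul; simp
  rw [hk, e, e', add_zero] at h
  exact h.symm

theorem sq_eq (x : A) : N x * N x = (2 : F) • N (jmul F (N x) x) := by
  have h := hN x x
  rw [jmul_self, jmul_comm' x (N x), map_add, ← two_smul F] at h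
  exact h

/-- elements of `B₂ ∩ ker` have square zero -/
theorem sq_zero (x : A) (h : N (N (N x)) = 0) : N (N x) * N (N x) = 0 := by
  rw [sq_eq N hN (N x), jmul_comm', ker_mod N hN x _ h, smul_zero]

/-- `N 1` is not in the image of `N ^ 3`, unless it is zero -/
theorem not_three (z : A) (h : N (N (N z)) = N 1) : N 1 = 0 := by
  have hk : N (N (N z) - 1) = 0 := by rw [map_sub, h, sub_self]
  have h1 := ker_mod N hN z _ hk
  rw [jmul_sub, jmul_one, map_sub, sub_eq_zero] at h1
  have h2 := ker_mod N hN (N z) _ hk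
  rw [jmul_sub, jmul_one, map_sub, sub_eq_zero, jmul_self, sq_eq N hN (N z), jmul_comm' (N (N z)) (N z), h1,
    map_smul, h, two_smul] at h2
  exact add_eq_left.mp h2

/-- if `N x = N 1` with `x` in the image, then `N (x * x) = N 1` -/
theorem sq_one (z : A) (h : N (N z) = N 1) : N (N z * N z) = N 1 := by
  have hk : N (N z - 1) = 0 := by rw [map_sub, h, sub_self]
  have h1 := ker_mod N hN z _ hk
  rw [jmul_sub, jmul_one, map_sub, sub_eq_zero, jmul_self, h] at h1
  exact h1

/-- `1` is not in the image -/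
theorem one_not_mem [Nontrivial A] (u : A) (h : N u = 1) : False := by
  have h1 := sq_eq N hN u
  rw [h, one_jmul, h, one_mul] at h1
  have h2 : (2 : F) • (1 : A) = 1 + 1 := two_smul F 1
  rw [h2] at h1
  exact one_ne_zero (left_eq_add.mp h1)

theorem NN_one (ha : N 1 * N 1 = 0) : N (N 1) = 0 := by
  have h := N_pow N hN 1
  rw [pow_one, pow_two, ha, smul_zero] at h
  exact h

end gen

section form

variable {F : Type*} [Field F] [CharZero F] {n : ℕ} {S : Matrix (Fin n) (Fin n) F}

/-- `e · v = e ⊗ v + v ⊗ e` -/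
def dt (S : Matrix (Fin n) (Fin n) F) (u v : Fin n → F) : Matrix (Fin n) (Fin n) F :=
  Matrix.vecMulVec u (S *ᵥ v) + Matrix.vecMulVec v (S *ᵥ u)

theorem dt_mulVec (hS : Sᵀ = S) (u v w : Fin n → F) : dt S u v *ᵥ w = bf S v w • u + bf S u w • v := by
  unfold dt
  rw [Matrix.add_mulVec, vmv_mulVec, vmv_mulVec, dot_eq hS, dot_eq hS]

theorem dt_adj (hS : Sᵀ = S) (hu : IsUnit S.det) (u v : Fin n → F) : adjS S (dt S u v) = dt S u v := by
  have h : dt S u v = Matrix.vecMulVec (u + v) (S *ᵥ (u + v)) - Matrix.vecMulVec u (S *ᵥ u) -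
      Matrix.vecMulVec v (S *ᵥ v) := by
    apply mat_ext
    intro w
    rw [dt_mulVec hS, Matrix.sub_mulVec, Matrix.sub_mulVec, vmv_mulVec, vmv_mulVec, vmv_mulVec, dot_eq hS, dot_eq hS,
      dot_eq hS, bf_add_left]
    module
  rw [h, map_sub, map_sub, adjS_vec hS hu, adjS_vec hS hu, adjS_vec hS hu]

/-- `x (u ⊗ u) = (x u) ⊗ u`, `(u ⊗ u) x = u ⊗ (x u)` for self-adjoint `x` -/
theorem jmul_E (hS : Sᵀ = S) (hu : IsUnit S.det) (e : Fin n → F) (y : Matrix (Fin n) (Fin n) F)
    (hy : adjS S y = y) :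
    jmul F (Matrix.vecMulVec e (S *ᵥ e)) y = (2 : F)⁻¹ • dt S e (y *ᵥ e) := by
  unfold jmul
  congr 1
  apply mat_ext
  intro w
  rw [dt_mulVec hS, Matrix.add_mulVec, ← Matrix.mulVec_mulVec, ← Matrix.mulVec_mulVec, vmv_mulVec, vmv_mulVec,
    dot_eq hS, dot_eq hS, bf_adj hu hy, Matrix.mulVec_smul]

theorem jmul_dt (hS : Sᵀ = S) (hu : IsUnit S.det) (e v : Fin n → F) (y : Matrix (Fin n) (Fin n) F)
    (hy : adjS S y = y) :
    jmul F y (dt S e v) = (2 : F)⁻¹ • (dt S (y *ᵥ e) v + dt S e (y *ᵥ v)) := by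
  unfold jmul
  congr 1
  apply mat_ext
  intro w
  rw [Matrix.add_mulVec, Matrix.add_mulVec, ← Matrix.mulVec_mulVec, ← Matrix.mulVec_mulVec, dt_mulVec hS,
    dt_mulVec hS, dt_mulVec hS, dt_mulVec hS, Matrix.mulVec_add, Matrix.mulVec_smul, Matrix.mulVec_smul,
    bf_adj hu hy, bf_adj hu hy]
  abel

end form

end JRB3
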