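import Mathlib
import Pool.Agent.H241R2.RBW.Gen

/-!
# Rota-Baxter operators on `H(V, q)` for forms of Witt index one
-/

namespace JRB3

open JRB JRB2 Matrix Module

set_option linter.unusedSectionVars false

section wone

variable {F : Type*} [Field F] [CharZero F] {n : ℕ} {S : Matrix (Fin n) (Fin n) F}

/-- no two-dimensional totally isotropic subspaces -/
def WOne (S : Matrix (Fin n) (Fin n) F) : Prop :=
  ∀ u v : Fin n → F, u ≠ 0 → bf S u u = 0 → bf S u v = 0 → bf S v v = 0 → ∃ c : F, v = c • u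

theorem exists_e (hS : Sᵀ = S) (hu : IsUnit S.det) (hw : WOne S) (a : Matrix (Fin n) (Fin n) F)
    (haa : adjS S a = a) (ha2 : a * a = 0) (ha0 : a ≠ 0) :
    ∃ (e : Fin n → F) (c : F), e ≠ 0 ∧ c ≠ 0 ∧ bf S e e = 0 ∧ c • a = Matrix.vecMulVec e (S *ᵥ e) := by
  obtain ⟨g, hg⟩ := exists_vec a ha0
  have h2 : ∀ v w, bf S (a *ᵥ v) (a *ᵥ w) = 0 := by
    intro v w
    rw [bf_adj hu haa, Matrix.mulVec_mulVec, ha2, Matrix.zero_mulVec, bf_zero_right]
  have h3 : ∀ v, ∃ c : F, a *ᵥ v = c • (a *ᵥ g) := fun v => hw _ _ hg (h2 g g) (h2 g v) (h2 v v)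
  have h4 : ∀ v, bf S g (a *ᵥ g) • (a *ᵥ v) = bf S (a *ᵥ g) v • (a *ᵥ g) := by
    intro v
    obtain ⟨c, hc⟩ := h3 v
    rw [bf_adj hu haa, hc, bf_smul_right, smul_smul, mul_comm]
  refine ⟨a *ᵥ g, bf S g (a *ᵥ g), hg, ?_, h2 g g, ?_⟩
  · intro h0
    apply hg
    apply bf_nondeg hu
    intro v
    have := h4 v
    rw [h0, zero_smul] at this
    rw [bf_comm hS]
    exact (smul_eq_zero.mp this.symm).resolve_right hg
  · apply mat_ext
    intro v
    rw [Matrix.smul_mulVec, h4, vmv_mulVec, dot_eq hS]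

variable (N : Matrix (Fin n) (Fin n) F →ₗ[F] Matrix (Fin n) (Fin n) F) (hN : IsRB F (jmul F) N)
  (hS : Sᵀ = S) (hu : IsUnit S.det) (hw : WOne S)
  (hτ : ∀ y, adjS S (N y) = N y) (ha2 : N 1 * N 1 = 0)
  (e : Fin n → F) (c : F) (he : e ≠ 0) (hc : c ≠ 0) (hee : bf S e e = 0)
  (hE : c • N 1 = Matrix.vecMulVec e (S *ᵥ e))

include hN hS hu hτ ha2 he hee hE

theorem NE_zero : N (Matrix.vecMulVec e (S *ᵥ e)) = 0 := by
  rw [← hE, map_smul, NN_one N hN ha2, smul_zero]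

theorem E_ne : Matrix.vecMulVec e (S *ᵥ e) ≠ 0 := by
  apply Matrix.vecMulVec_ne_zero he
  intro h0
  apply he
  apply bf_nondeg hu
  intro v
  unfold bf
  rw [h0, dotProduct_zero]

theorem e_isotropic (y : Matrix (Fin n) (Fin n) F) : bf S e (N y *ᵥ e) = 0 := by
  have h := rel_kk N hN 1 (by rw [pow_succ, pow_one]; exact ha2) y
  rw [pow_one] at h
  have h' := congrArg (fun w => (c * c) • w) h
  have e1 : ∀ z : Matrix (Fin n) (Fin n) F, (c * c) • (N 1 * z * N 1) =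
      bf S e (z *ᵥ e) • Matrix.vecMulVec e (S *ᵥ e) := by
    intro z
    have : (c * c) • (N 1 * z * N 1) = (c • N 1) * z * (c • N 1) := by
      simp only [smul_mul_assoc, mul_smul_comm, smul_smul]
    rw [this, hE, vmv_mul, dot_eq hS]
  rw [e1, ← map_smul, e1, map_smul, NE_zero N hN hS hu hτ ha2 e c he hee hE, smul_zero] at h'
  exact (smul_eq_zero.mp h').resolve_right (E_ne N hN hS hu hτ ha2 e c he hee hE)

include hw in
theorem eig (y : Matrix (Fin n) (Fin n) F) : ∃ χ : F, N y *ᵥ e = χ • e := by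
  apply hw e _ he hee (e_isotropic N hN hS hu hτ ha2 e c he hee hE y)
  rw [bf_adj hu (hτ y), Matrix.mulVec_mulVec, sq_eq N hN, Matrix.smul_mulVec, bf_smul_right,
    e_isotropic N hN hS hu hτ ha2 e c he hee hE, mul_zero]

include hc in
theorem a_jmul (b : Matrix (Fin n) (Fin n) F) (hb : adjS S b = b) (χ : F) (h : b *ᵥ e = χ • e) :
    jmul F (N 1) b = χ • N 1 := by
  have h1 := jmul_E hS hu e b hb
  rw [← hE, smul_jmul, h] at h1
  have h2 : (2 : F)⁻¹ • dt S e (χ • e) = c • (χ • N 1) := by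
    rw [smul_comm c χ, hE]
    apply mat_ext
    intro w
    rw [Matrix.smul_mulVec, dt_mulVec hS, Matrix.smul_mulVec, vmv_mulVec, dot_eq hS, bf_smul_left]
    have h2 : (2 : F) ≠ 0 := two_ne_zero
    have : (χ * bf S e w) • e + bf S e w • χ • e = (2 : F) • (χ • (bf S e w • e)) := by
      rw [smul_smul, smul_smul, smul_smul, ← add_smul]; congr 1; ring
    rw [this, smul_smul, inv_mul_cancel₀ h2, one_smul]
  rw [h2] at h1
  exact smul_right_injective _ hc h1

include hw hc in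
theorem N_three (hne : N 1 ≠ 0) (y : Matrix (Fin n) (Fin n) F) : N (N (N y)) = 0 ∧ N (N y) *ᵥ e = 0 := by
  obtain ⟨χ1, h1⟩ := eig N hN hS hu hw hτ ha2 e c he hee hE y
  obtain ⟨χ2, h2⟩ := eig N hN hS hu hw hτ ha2 e c he hee hE (N y)
  have r1 := a_jmul N hN hS hu hτ ha2 e c he hc hee hE _ (hτ y) _ h1
  have r2 := a_jmul N hN hS hu hτ ha2 e c he hc hee hE _ (hτ (N y)) _ h2
  have r3 := N_one_rel N hN (N y)
  rw [r1, r2, map_smul, NN_one N hN ha2, smul_zero, zero_add] at r3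
  have hχ : χ2 = 0 := by
    by_contra h0
    apply hne
    apply not_three N hN (χ2⁻¹ • y)
    rw [map_smul, map_smul, map_smul, ← r3, smul_smul, inv_mul_cancel₀ h0, one_smul]
  rw [hχ, zero_smul] at r3 h2
  exact ⟨r3.symm, h2⟩

end wone

end JRB3
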