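import Mathlib
import Pool.Agent.H241R2.RBW.One

/-!
# `n = 3`: the square of every Rota-Baxter operator vanishes
-/

namespace JRB3

open JRB JRB2 Matrix Module

set_option linter.unusedSectionVars false

section pre

variable {F : Type*} [Field F] [CharZero F] {n : ℕ} {S : Matrix (Fin n) (Fin n) F}

theorem exists_f (hS : Sᵀ = S) (hu : IsUnit S.det) (e : Fin n → F) (he : e ≠ 0) : ∃ f, bf S e f = 1 := by
  obtain ⟨f, hf⟩ : ∃ f, bf S e f ≠ 0 := by
    by_contra h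
    push Not at h
    apply he
    apply bf_nondeg hu
    intro v
    rw [bf_comm hS]; exact h v
  exact ⟨(bf S e f)⁻¹ • f, by rw [bf_smul_right, inv_mul_cancel₀ hf]⟩

theorem surj_e (hS : Sᵀ = S) (hu : IsUnit S.det) (e : Fin n → F) (he : e ≠ 0) (v : Fin n → F) :
    ∃ y : Matrix (Fin n) (Fin n) F, adjS S y = y ∧ y *ᵥ e = v := by
  obtain ⟨f, hf⟩ := exists_f hS hu e he
  have hf' : bf S f e = 1 := by rw [bf_comm hS]; exact hf
  refine ⟨dt S f v - bf S v e • Matrix.vecMulVec f (S *ᵥ f), ?_, ?_⟩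
  · rw [map_sub, map_smul, dt_adj hS hu, adjS_vec hS hu]
  · rw [Matrix.sub_mulVec, Matrix.smul_mulVec, dt_mulVec hS, vmv_mulVec, dot_eq hS, hf']
    module

theorem jmul_adj (hu : IsUnit S.det) (x y : Matrix (Fin n) (Fin n) F) (hx : adjS S x = x) (hy : adjS S y = y) :
    adjS S (jmul F x y) = jmul F x y := by
  unfold jmul
  rw [map_smul, map_add, adjS_mul hu, adjS_mul hu, hx, hy, add_comm]

theorem dt_smul (e v : Fin n → F) (r : F) : dt S e (r • v) = r • dt S e v := by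
  unfold dt
  rw [Matrix.mulVec_smul, Matrix.vecMulVec_smul, Matrix.smul_vecMulVec, smul_add]

theorem dt_add (e v w : Fin n → F) : dt S e (v + w) = dt S e v + dt S e w := by
  unfold dt
  rw [Matrix.mulVec_add, Matrix.vecMulVec_add, Matrix.add_vecMulVec]; abel

theorem dt_self (e : Fin n → F) : dt S e e = (2 : F) • Matrix.vecMulVec e (S *ᵥ e) := by
  unfold dt; rw [two_smul]

end pre

section three

variable {F : Type*} [Field F] [CharZero F] {n : ℕ} {S : Matrix (Fin n) (Fin n) F}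
variable (N : Matrix (Fin n) (Fin n) F →ₗ[F] Matrix (Fin n) (Fin n) F) (hN : IsRB F (jmul F) N)
  (hS : Sᵀ = S) (hu : IsUnit S.det) (hw : WOne S)
  (hτ : ∀ y, adjS S (N y) = N y) (ha2 : N 1 * N 1 = 0)
  (e : Fin n → F) (c : F) (he : e ≠ 0) (hc : c ≠ 0) (hee : bf S e e = 0)
  (hE : c • N 1 = Matrix.vecMulVec e (S *ᵥ e)) (hne : N 1 ≠ 0)

include hN hS hu hτ ha2 he hee hE hc hne hw

theorem g_form (y : Matrix (Fin n) (Fin n) F) : ∃ θ : F, N (N y) = θ • N 1 := by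
  obtain ⟨h3, hge⟩ := N_three N hN hS hu hw hτ ha2 e c he hc hee hE hne y
  have hgg := sq_zero N hN y h3
  set g := N (N y) with hg
  have hga : adjS S g = g := hτ _
  obtain ⟨f, hf⟩ := exists_f hS hu e he
  have h1 : ∀ v, ∃ r : F, g *ᵥ v = r • e := by
    intro v
    apply hw e _ he hee
    · rw [← bf_adj hu hga, hge, bf_zero_left]
    · rw [bf_adj hu hga, Matrix.mulVec_mulVec, hgg, Matrix.zero_mulVec, bf_zero_right]
  obtain ⟨r, hr⟩ := h1 f
  refine ⟨r * c, ?_⟩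
  rw [mul_smul, hE]
  apply mat_ext
  intro v
  obtain ⟨s, hs⟩ := h1 v
  have h2 : s = r * bf S e v := by
    have h3 : bf S (g *ᵥ v) f = bf S v (g *ᵥ f) := bf_adj hu hga _ _
    rw [hs, hr, bf_smul_left, bf_smul_right, hf, mul_one, bf_comm hS v e] at h3
    exact h3
  rw [hs, Matrix.smul_mulVec, vmv_mulVec, dot_eq hS, h2, smul_smul]

theorem tau_eq (y : Matrix (Fin n) (Fin n) F) (hy : adjS S y = y) (ψ θ : F) (h1 : N y *ᵥ e = ψ • e)
    (h2 : N (N y) = θ • N 1) :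
    N (jmul F (N 1) y) = (ψ - θ) • N 1 ∧ N (dt S e (y *ᵥ e)) = (2 * c * (ψ - θ)) • N 1 := by
  have r := N_one_rel N hN y
  rw [a_jmul N hN hS hu hτ ha2 e c he hc hee hE _ (hτ y) _ h1, h2] at r
  have r1 : N (jmul F (N 1) y) = (ψ - θ) • N 1 := by
    rw [sub_smul, r]; abel
  refine ⟨r1, ?_⟩
  have h3 := jmul_E hS hu e y hy
  rw [← hE, smul_jmul] at h3
  have h4 : dt S e (y *ᵥ e) = (2 * c) • jmul F (N 1) y := by
    rw [mul_smul, h3, smul_smul, mul_inv_cancel₀ (two_ne_zero : (2 : F) ≠ 0), one_smul]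
  rw [h4, map_smul, r1, smul_smul]

theorem tau_ex (v : Fin n → F) : ∃ t : F, N (dt S e v) = t • N 1 := by
  obtain ⟨y, hy, hv⟩ := surj_e hS hu e he v
  obtain ⟨ψ, h1⟩ := eig N hN hS hu hw hτ ha2 e c he hee hE y
  obtain ⟨θ, h2⟩ := g_form N hN hS hu hw hτ ha2 e c he hc hee hE hne y
  refine ⟨2 * c * (ψ - θ), ?_⟩
  rw [← hv]
  exact (tau_eq N hN hS hu hw hτ ha2 e c he hc hee hE hne y hy ψ θ h1 h2).2

theorem star (y : Matrix (Fin n) (Fin n) F) (hy : adjS S y = y) (ψ θ : F) (h1 : N y *ᵥ e = ψ • e)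
    (h2 : N (N y) = θ • N 1) (v : Fin n → F) (t : F) (ht : N (dt S e v) = t • N 1) :
    N (dt S e (N y *ᵥ v)) = ((2 * θ - ψ) * t) • N 1 := by
  have h := hN y (dt S e v)
  rw [ht, jmul_smul, jmul_smul, jmul_comm' (N y) (N 1), jmul_comm' y (N 1),
    a_jmul N hN hS hu hτ ha2 e c he hc hee hE _ (hτ y) _ h1, map_add, map_smul,
    (tau_eq N hN hS hu hw hτ ha2 e c he hc hee hE hne y hy ψ θ h1 h2).1, jmul_dt hS hu e v _ (hτ y), h1,
    map_smul, map_add] at h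
  have h3 : dt S (ψ • e) v = ψ • dt S e v := by
    unfold dt
    rw [Matrix.mulVec_smul, Matrix.vecMulVec_smul, Matrix.smul_vecMulVec, smul_add]
  rw [h3, map_smul, ht] at h
  have h2 : (2 : F) ≠ 0 := two_ne_zero
  have h4 := congrArg (fun w => (2 : F) • w) h
  simp only [smul_add, smul_smul] at h4
  rw [mul_inv_cancel₀ h2, one_smul, ← mul_assoc (2 : F) (2 : F)⁻¹ (ψ * t), mul_inv_cancel₀ h2, one_mul] at h4
  have h5 : N (dt S e (N y *ᵥ v)) = (2 * (t * ψ)) • N 1 - (ψ * t) • N 1 - (2 * (t * (ψ - θ))) • N 1 := by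
    rw [h4]; abel
  rw [h5, ← sub_smul, ← sub_smul]
  congr 1
  ring

end three

end JRB3
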