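import Mathlib
import Pool.Agent.H241R2.RBW.Three

/-!
# `n = 3`: the square of every Rota-Baxter operator vanishes (main theorem)
-/

namespace JRB3

open JRB JRB2 Matrix Module

set_option linter.unusedSectionVars false

section lin

variable {F : Type*} [Field F] [CharZero F] {n : ℕ} {S : Matrix (Fin n) (Fin n) F}

/-- `v ↦ (bf e v, bf h v)` -/
def phi2 (S : Matrix (Fin n) (Fin n) F) (e h : Fin n → F) : (Fin n → F) →ₗ[F] (F × F) where
  toFun v := (bf S e v, bf S h v)
  map_add' v w := by rw [bf_add_right, bf_add_right]; rfl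
  map_smul' r v := by rw [bf_smul_right, bf_smul_right]; rfl

theorem fin1 {W : Type*} [AddCommGroup W] [Module F W] (v : W) : finrank F (Submodule.span F {v}) ≤ 1 := by
  have h5 := finrank_span_le_card (R := F) ({v} : Set W)
  simpa using h5

theorem exists_h (hn : 3 ≤ n) (hw : WOne S) (e g : Fin n → F) (he : e ≠ 0) (hee : bf S e e = 0)
    (hd : n < 4 → g = e) : ∃ h, bf S e h = 0 ∧ bf S g h = 0 ∧ bf S h h ≠ 0 := by
  by_contra hcon
  push Not at hcon
  have h1 := LinearMap.finrank_range_add_finrank_ker (phi2 S e g)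
  rw [Module.finrank_fin_fun] at h1
  have h2 : 2 ≤ finrank F (LinearMap.ker (phi2 S e g)) := by
    rcases Nat.lt_or_ge n 4 with h4 | h4
    · have hge := hd h4
      have h3 : finrank F (LinearMap.range (phi2 S e g)) ≤ 1 := by
        have hle : LinearMap.range (phi2 S e g) ≤ Submodule.span F {((1 : F), (1 : F))} := by
          rintro _ ⟨v, rfl⟩
          rw [Submodule.mem_span_singleton]
          refine ⟨bf S e v, ?_⟩
          show (bf S e v • (1 : F), bf S e v • (1 : F)) = (bf S e v, bf S g v)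
          rw [hge]; simp
        exact (Submodule.finrank_mono hle).trans (fin1 _)
      omega
    · have h3 : finrank F (LinearMap.range (phi2 S e g)) ≤ 2 := by
        refine (Submodule.finrank_le _).trans ?_
        simp
      omega
  have h5 : LinearMap.ker (phi2 S e g) ≤ Submodule.span F {e} := by
    intro h hh
    have hh' : (bf S e h, bf S g h) = (0, 0) := hh
    have a1 := (Prod.mk.inj hh').1
    have a2 := (Prod.mk.inj hh').2
    obtain ⟨r, hr⟩ := hw e h he hee a1 (hcon h a1 a2)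
    rw [Submodule.mem_span_singleton]
    exact ⟨r, hr.symm⟩
  have h6 := (Submodule.finrank_mono h5).trans (fin1 _)
  omega

theorem decomp (hn : n = 3) (hS : Sᵀ = S) (e h f : Fin n → F) (he : e ≠ 0) (hee : bf S e e = 0)
    (heh : bf S e h = 0) (hhh : bf S h h ≠ 0) (hef : bf S e f = 1) (hhf : bf S h f = 0) (v : Fin n → F) :
    ∃ α : F, v = α • e + (bf S h v / bf S h h) • h + bf S e v • f := by
  have h1 := LinearMap.finrank_range_add_finrank_ker (phi2 S e h)
  rw [Module.finrank_fin_fun] at h1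
  have hr : LinearMap.range (phi2 S e h) = ⊤ := by
    rw [LinearMap.range_eq_top]
    rintro ⟨p, q⟩
    refine ⟨p • f + (q / bf S h h) • h, ?_⟩
    show (bf S e _, bf S h _) = (p, q)
    rw [bf_add_right, bf_add_right, bf_smul_right, bf_smul_right, bf_smul_right, bf_smul_right, hef, heh, hhf]
    ext
    · simp
    · simp [hhh]
  rw [hr, finrank_top, Module.finrank_prod, Module.finrank_self] at h1
  have h2 : finrank F (LinearMap.ker (phi2 S e h)) = 1 := by omega
  have hhe : bf S h e = 0 := by rw [bf_comm hS]; exact heh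
  have hek : e ∈ LinearMap.ker (phi2 S e h) := by
    show (bf S e e, bf S h e) = (0, 0)
    rw [hee, hhe]
  have h3 := (finrank_eq_one_iff_of_nonzero' (⟨e, hek⟩ : LinearMap.ker (phi2 S e h))
    (by intro h0; exact he (congrArg Subtype.val h0))).1 h2
  have hvk : v - (bf S h v / bf S h h) • h - bf S e v • f ∈ LinearMap.ker (phi2 S e h) := by
    show (bf S e _, bf S h _) = (0, 0)
    have sub_right : ∀ a b w : Fin n → F, bf S w (a - b) = bf S w a - bf S w b := by
      intro a b w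
      have : a - b = a + (-1 : F) • b := by module
      rw [this, bf_add_right, bf_smul_right]; ring
    rw [sub_right, sub_right, sub_right, sub_right, bf_smul_right, bf_smul_right, bf_smul_right, bf_smul_right, hef,
      heh, hhf]
    ext
    · simp
    · simp [hhh]
  obtain ⟨α, hα⟩ := h3 ⟨_, hvk⟩
  refine ⟨α, ?_⟩
  have h4 : α • e = v - (bf S h v / bf S h h) • h - bf S e v • f := congrArg Subtype.val hα
  rw [h4]; abel

end lin

section three

variable {F : Type*} [Field F] [CharZero F] {n : ℕ} {S : Matrix (Fin n) (Fin n) F}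
variable (N : Matrix (Fin n) (Fin n) F →ₗ[F] Matrix (Fin n) (Fin n) F) (hN : IsRB F (jmul F) N)
  (hS : Sᵀ = S) (hu : IsUnit S.det) (hw : WOne S)
  (hτ : ∀ y, adjS S (N y) = N y) (ha2 : N 1 * N 1 = 0)
  (e : Fin n → F) (c : F) (he : e ≠ 0) (hc : c ≠ 0) (hee : bf S e e = 0)
  (hE : c • N 1 = Matrix.vecMulVec e (S *ᵥ e)) (hne : N 1 ≠ 0)

include hN hS hu hτ ha2 he hee hE hc hne hw

theorem psi_one (z : Matrix (Fin n) (Fin n) F) (hz : adjS S z = z) (hNN : N (N z) = N 1) : N z *ᵥ e = e := by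
  obtain ⟨ψ, hψ⟩ := eig N hN hS hu hw hτ ha2 e c he hee hE z
  have inj : ∀ r s : F, r • N 1 = s • N 1 → r = s := by
    intro r s h
    have : (r - s) • N 1 = 0 := by rw [sub_smul, h, sub_self]
    exact sub_eq_zero.mp ((smul_eq_zero.mp this).resolve_right hne)
  have hNN' : N (N z) = (1 : F) • N 1 := by rw [one_smul]; exact hNN
  set y2 := (2 : F) • jmul F (N z) z with hy2
  have hy2a : adjS S y2 = y2 := by rw [hy2, map_smul, jmul_adj hu _ _ (hτ z) hz]
  have hNy2 : N y2 = N z * N z := by rw [hy2, map_smul]; exact (sq_eq N hN z).symm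
  have hy2e : N y2 *ᵥ e = (ψ * ψ) • e := by
    rw [hNy2, ← Matrix.mulVec_mulVec, hψ, Matrix.mulVec_smul, hψ, smul_smul]
  have hNNy2 : N (N y2) = (1 : F) • N 1 := by
    rw [hNy2, one_smul]; exact sq_one N hN z hNN
  have key : ∀ v t, N (dt S e v) = t • N 1 → (2 * 1 - ψ * ψ) * t = (2 * 1 - ψ) * ((2 * 1 - ψ) * t) := by
    intro v t ht
    apply inj
    have a1 := star N hN hS hu hw hτ ha2 e c he hc hee hE hne y2 hy2a _ _ hy2e hNNy2 v t ht
    have a2 := star N hN hS hu hw hτ ha2 e c he hc hee hE hne z hz _ _ hψ hNN' v t ht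
    have a3 := star N hN hS hu hw hτ ha2 e c he hc hee hE hne z hz _ _ hψ hNN' _ _ a2
    rw [← a1, ← a3, hNy2, Matrix.mulVec_mulVec]
  have h1 : ψ = 1 := by
    by_contra h1
    have h1' : ψ - 1 ≠ 0 := sub_ne_zero.mpr h1
    have h2 := (tau_eq N hN hS hu hw hτ ha2 e c he hc hee hE hne z hz _ _ hψ hNN').2
    have h3 := key _ _ h2
    have h4 : (ψ - 1) * (ψ - 1) * (ψ - 1) * (2 * (2 * c)) = 0 := by linear_combination -h3
    have h5 : (2 : F) ≠ 0 := two_ne_zero
    exact (mul_ne_zero (mul_ne_zero (mul_ne_zero h1' h1') h1') (mul_ne_zero h5 (mul_ne_zero h5 hc))) h4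
  rw [hψ, h1, one_smul]

theorem three_main (hn : n = 3) (z : Matrix (Fin n) (Fin n) F) (hz : adjS S z = z) : N (N z) = 0 := by
  classical
  have : Nontrivial (Matrix (Fin n) (Fin n) F) := ⟨⟨N 1, 0, hne⟩⟩
  by_contra hz0
  obtain ⟨θ0, hθ0⟩ := g_form N hN hS hu hw hτ ha2 e c he hc hee hE hne z
  have hθne : θ0 ≠ 0 := by
    intro h; apply hz0; rw [hθ0, h, zero_smul]
  obtain ⟨w, hwa, hwN⟩ : ∃ w, adjS S w = w ∧ N (N w) = N 1 :=
    ⟨θ0⁻¹ • z, by rw [map_smul, hz], by rw [map_smul, map_smul, hθ0, smul_smul, inv_mul_cancel₀ hθne, one_smul]⟩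
  have hxe := psi_one N hN hS hu hw hτ ha2 e c he hc hee hE hne w hwa hwN
  have hwN' : N (N w) = (1 : F) • N 1 := by rw [one_smul]; exact hwN
  have inj : ∀ r s : F, r • N 1 = s • N 1 → r = s := by
    intro r s h
    have : (r - s) • N 1 = 0 := by rw [sub_smul, h, sub_self]
    exact sub_eq_zero.mp ((smul_eq_zero.mp this).resolve_right hne)
  -- basis
  obtain ⟨h, heh, -, hhh⟩ := exists_h (by omega) hw e e he hee (fun _ => rfl)
  obtain ⟨f0, hf0⟩ := exists_f hS hu e he
  obtain ⟨f, hef, hhf⟩ : ∃ f, bf S e f = 1 ∧ bf S h f = 0 := by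
    refine ⟨f0 + (-(bf S h f0 / bf S h h)) • h, ?_, ?_⟩
    · rw [bf_add_right, bf_smul_right, hf0, heh]; ring
    · rw [bf_add_right, bf_smul_right]; field_simp; ring
  have hhe : bf S h e = 0 := by rw [bf_comm hS]; exact heh
  have hfe : bf S f e = 1 := by rw [bf_comm hS]; exact hef
  have hfh : bf S f h = 0 := by rw [bf_comm hS]; exact hhf
  set κ := bf S h h with hκ
  have dec := decomp hn hS e h f he hee heh hhh hef hhf
  set x := N w with hx
  have hxa : adjS S x = x := hτ w
  obtain ⟨ν, hxh⟩ := dec (x *ᵥ h)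
  rw [← bf_adj hu hxa e h, hxe, heh, zero_smul, add_zero] at hxh
  set μ := bf S h (x *ᵥ h) / κ with hμ
  obtain ⟨β, hxf⟩ := dec (x *ᵥ f)
  rw [← bf_adj hu hxa e f, hxe, hef, one_smul] at hxf
  set γ := bf S h (x *ᵥ f) / κ with hγ
  -- two matrices agreeing on `e, h, f` agree
  have ext3 : ∀ P Q : Matrix (Fin n) (Fin n) F, P *ᵥ e = Q *ᵥ e → P *ᵥ h = Q *ᵥ h → P *ᵥ f = Q *ᵥ f → P = Q := by
    intro P Q h1 h2 h3
    apply mat_ext
    intro v
    obtain ⟨α, hv⟩ := dec v
    rw [hv, Matrix.mulVec_add, Matrix.mulVec_add, Matrix.mulVec_add, Matrix.mulVec_add, Matrix.mulVec_smul,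
      Matrix.mulVec_smul, Matrix.mulVec_smul, Matrix.mulVec_smul, Matrix.mulVec_smul, Matrix.mulVec_smul, h1, h2, h3]
  -- `μ = 0`
  have hμ0 : μ = 0 := by
    by_contra hμ0
    obtain ⟨y2, hNy2⟩ : ∃ y2, N y2 = x * x :=
      ⟨(2 : F) • jmul F x w, by rw [map_smul]; exact (sq_eq N hN w).symm⟩
    have hcub : x * (x * x) - (2 + μ) • (x * x) + (1 + 2 * μ) • x = μ • 1 := by
      apply ext3
      · simp only [Matrix.add_mulVec, Matrix.sub_mulVec, Matrix.smul_mulVec, ← Matrix.mulVec_mulVec, hxe,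
          Matrix.one_mulVec]
        module
      · simp only [Matrix.add_mulVec, Matrix.sub_mulVec, Matrix.smul_mulVec, ← Matrix.mulVec_mulVec, hxe,
          Matrix.one_mulVec, hxh, Matrix.mulVec_add, Matrix.mulVec_smul]
        module
      · simp only [Matrix.add_mulVec, Matrix.sub_mulVec, Matrix.smul_mulVec, ← Matrix.mulVec_mulVec, hxe,
          Matrix.one_mulVec, hxh, hxf, Matrix.mulVec_add, Matrix.mulVec_smul]
        module
    obtain ⟨y3, hx3⟩ : ∃ y3, N y3 = x * (x * x) := by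
      refine ⟨jmul F (N w) y2 + jmul F w (N y2), ?_⟩
      rw [← hN w y2, hNy2]
      exact jmul_of_commute (by rw [← hx, mul_assoc])
    apply one_not_mem N hN (μ⁻¹ • (y3 - (2 + μ) • y2 + (1 + 2 * μ) • w))
    rw [map_smul, map_add, map_sub, map_smul, map_smul, hx3, hNy2, ← hx, hcub, smul_smul, inv_mul_cancel₀ hμ0,
      one_smul]
  rw [hμ0, zero_smul, add_zero] at hxh
  have hνγ : ν = γ * κ := by
    have h1 : bf S (x *ᵥ h) f = bf S h (x *ᵥ f) := bf_adj hu hxa _ _
    rw [hxh, bf_smul_left, hef, mul_one] at h1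
    rw [h1, hγ, div_mul_cancel₀ _ hhh]
  -- `x = e · v0`
  have hxdt : x = dt S e (f + γ • h + ((β - bf S f f) / 2) • e) := by
    apply ext3
    · rw [hxe, dt_mulVec hS, bf_add_left, bf_add_left, bf_smul_left, bf_smul_left, hfe, hhe, hee]
      module
    · rw [hxh, dt_mulVec hS, bf_add_left, bf_add_left, bf_smul_left, bf_smul_left, hfh, heh, hνγ, ← hκ]
      module
    · rw [hxf, dt_mulVec hS, bf_add_left, bf_add_left, bf_smul_left, bf_smul_left, hhf, hef]
      have h2 : (2 : F) ≠ 0 := two_ne_zero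
      have h3 : β = bf S f f + (β - bf S f f) / 2 + (β - bf S f f) / 2 := by field_simp; ring
      conv_lhs => rw [h3]
      module
  have hNe : N (dt S e e) = 0 := by
    rw [dt_self, map_smul, NE_zero N hN hS hu hτ ha2 e c he hee hE, smul_zero]
  -- `τ (h) = 0`
  have hNh : N (dt S e h) = 0 := by
    obtain ⟨t, ht⟩ := tau_ex N hN hS hu hw hτ ha2 e c he hc hee hE hne h
    have h1 := star N hN hS hu hw hτ ha2 e c he hc hee hE hne w hwa 1 1 (by rw [one_smul]; exact hxe) hwN' h t ht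
    rw [← hx, hxh, dt_smul, map_smul, hNe, smul_zero] at h1
    have h2 : ((2 * 1 - 1) * t) • N 1 = (0 : F) • N 1 := by rw [← h1, zero_smul]
    have h3 := inj _ _ h2
    have h4 : t = 0 := by linear_combination h3
    rw [ht, h4, zero_smul]
  have hNf : N (dt S e f) = (1 : F) • N 1 := by
    have h1 : N x = N (dt S e (f + γ • h + ((β - bf S f f) / 2) • e)) := congrArg N hxdt
    rw [hwN, dt_add, dt_add, dt_smul, dt_smul, map_add, map_add, map_smul, map_smul, hNe, hNh, smul_zero, smul_zero,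
      add_zero, add_zero] at h1
    rw [one_smul]; exact h1.symm
  have hNv : ∀ v, N (dt S e v) = bf S e v • N 1 := by
    intro v
    obtain ⟨α, hv⟩ := dec v
    conv_lhs => rw [hv]
    rw [dt_add, dt_add, dt_smul, dt_smul, dt_smul, map_add, map_add, map_smul, map_smul, map_smul, hNe, hNh, hNf,
      smul_zero, smul_zero, zero_add, zero_add, one_smul]
  -- contradiction
  obtain ⟨y, hy, hyf⟩ := surj_e hS hu e he f
  obtain ⟨ψ, h1⟩ := eig N hN hS hu hw hτ ha2 e c he hee hE y
  obtain ⟨θ, h2⟩ := g_form N hN hS hu hw hτ ha2 e c he hc hee hE hne y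
  have h3 := star N hN hS hu hw hτ ha2 e c he hc hee hE hne y hy ψ θ h1 h2 f 1 hNf
  rw [hNv, ← bf_adj hu (hτ y), h1, bf_smul_left, hef] at h3
  have h4 := inj _ _ h3
  have h5 := (tau_eq N hN hS hu hw hτ ha2 e c he hc hee hE hne y hy ψ θ h1 h2).2
  rw [hyf, hNf] at h5
  have h6 := inj _ _ h5
  have h7 : ψ - θ = 0 := by
    have : 2 * (ψ - θ) = 0 := by linear_combination h4
    exact (mul_eq_zero.mp this).resolve_left two_ne_zero
  rw [h7, mul_zero] at h6
  exact one_ne_zero h6

end three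

end JRB3
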