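import Mathlib
import Pool.Agent.H241R2.RBW.ThreeMain

/-!
# `n ≥ 4`, Witt index one: a Rota-Baxter operator with nonzero square; assembly
-/

namespace JRB3

open JRB JRB2 Matrix Module

set_option linter.unusedSectionVars false

section ex

variable {F : Type*} [Field F] [CharZero F] {n : ℕ} {S : Matrix (Fin n) (Fin n) F}

/-- `y ↦ s bf(t, y t) E + bf(t, y c) P` -/
def exN (S : Matrix (Fin n) (Fin n) F) (t c : Fin n → F) (s : F) (E P : Matrix (Fin n) (Fin n) F) :
    Matrix (Fin n) (Fin n) F →ₗ[F] Matrix (Fin n) (Fin n) F where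
  toFun y := (s * bf S t (y *ᵥ t)) • E + bf S t (y *ᵥ c) • P
  map_add' x y := by
    rw [Matrix.add_mulVec, Matrix.add_mulVec, bf_add_right, bf_add_right]; module
  map_smul' r x := by
    rw [Matrix.smul_mulVec, Matrix.smul_mulVec, bf_smul_right, bf_smul_right]; simp only [RingHom.id_apply]; module

theorem exN_apply (t c : Fin n → F) (s : F) (E P y : Matrix (Fin n) (Fin n) F) :
    exN S t c s E P y = (s * bf S t (y *ᵥ t)) • E + bf S t (y *ᵥ c) • P := rfl

theorem exN_RB (hS : Sᵀ = S) (hu : IsUnit S.det) (t c : Fin n → F) (s : F) (E P : Matrix (Fin n) (Fin n) F)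
    (hEa : adjS S E = E) (hPa : adjS S P = P) (hEE : E * E = 0) (hEP : E * P = E) (hPE : P * E = E)
    (hPP : P * P = P) (hEt : E *ᵥ t = 0) (hEc : E *ᵥ c = 0) (hPt : P *ᵥ t = t) (hPc : P *ᵥ c = 0) :
    IsRB F (jmul F) (exN S t c s E P) := by
  have h2 : (2 : F) ≠ 0 := two_ne_zero
  have a1 : ∀ y, bf S t (jmul F E y *ᵥ t) = 0 := by
    intro y
    unfold jmul
    rw [Matrix.smul_mulVec, Matrix.add_mulVec, ← Matrix.mulVec_mulVec, ← Matrix.mulVec_mulVec, hEt,
      Matrix.mulVec_zero, add_zero, bf_smul_right, ← bf_adj hu hEa, hEt, bf_zero_left, mul_zero]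
  have a2 : ∀ y, bf S t (jmul F E y *ᵥ c) = 0 := by
    intro y
    unfold jmul
    rw [Matrix.smul_mulVec, Matrix.add_mulVec, ← Matrix.mulVec_mulVec, ← Matrix.mulVec_mulVec, hEc,
      Matrix.mulVec_zero, add_zero, bf_smul_right, ← bf_adj hu hEa, hEt, bf_zero_left, mul_zero]
  have a3 : ∀ y, bf S t (jmul F P y *ᵥ t) = bf S t (y *ᵥ t) := by
    intro y
    unfold jmul
    rw [Matrix.smul_mulVec, Matrix.add_mulVec, ← Matrix.mulVec_mulVec, ← Matrix.mulVec_mulVec, hPt,
      bf_smul_right, bf_add_right, ← bf_adj hu hPa, hPt]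
    field_simp; ring
  have a4 : ∀ y, bf S t (jmul F P y *ᵥ c) = 2⁻¹ * bf S t (y *ᵥ c) := by
    intro y
    unfold jmul
    rw [Matrix.smul_mulVec, Matrix.add_mulVec, ← Matrix.mulVec_mulVec, ← Matrix.mulVec_mulVec, hPc,
      Matrix.mulVec_zero, add_zero, bf_smul_right, ← bf_adj hu hPa, hPt]
  have key : ∀ (p q : F) (y : Matrix (Fin n) (Fin n) F), exN S t c s E P (jmul F (p • E + q • P) y) =
      (q * (s * bf S t (y *ᵥ t))) • E + (q * (2⁻¹ * bf S t (y *ᵥ c))) • P := by
    intro p q y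
    have e : jmul F (p • E + q • P) y = p • jmul F E y + q • jmul F P y := by
      rw [jmul_comm', jmul_add, jmul_smul, jmul_smul, jmul_comm' y E, jmul_comm' y P]
    rw [exN_apply, e, Matrix.add_mulVec, Matrix.add_mulVec, Matrix.smul_mulVec, Matrix.smul_mulVec,
      Matrix.smul_mulVec, Matrix.smul_mulVec, bf_add_right, bf_add_right, bf_smul_right, bf_smul_right, bf_smul_right,
      bf_smul_right, a1, a2, a3, a4]
    congr 2 <;> ring
  intro x y
  rw [map_add, jmul_comm' x (exN S t c s E P y), exN_apply t c s E P x, exN_apply t c s E P y, key, key]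
  unfold jmul
  simp only [add_mul, mul_add, smul_mul_assoc, mul_smul_comm, hEE, hEP, hPE, hPP, smul_zero]
  have h3 : (2 : F)⁻¹ * 2 = 1 := inv_mul_cancel₀ h2
  have e1 : ∀ (p q r t' : F), (2 : F)⁻¹ • (0 + r • t' • E + (p • q • E + r • q • P) + (0 + p • q • E + (r • t' • E + r • q • P))) =
      (p * q + r * t') • E + (r * q) • P := by
    intro p q r t'
    have : (0 + r • t' • E + (p • q • E + r • q • P) + (0 + p • q • E + (r • t' • E + r • q • P))) =
        (2 : F) • ((p * q + r * t') • E + (r * q) • P) := by module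
    rw [this, smul_smul, h3, one_smul]
  have h5 : (2 : F)⁻¹ + 2⁻¹ = 1 := by rw [← two_mul, mul_inv_cancel₀ h2]
  have e2 : ∀ (p q r t' : F), (r * t') • E + (r * (2⁻¹ * q)) • P + ((q * p) • E + (q * (2⁻¹ * r)) • P) =
      (p * q + r * t') • E + (r * q) • P := by
    intro p q r t'
    have : r * q = r * (2⁻¹ * q) + q * (2⁻¹ * r) := by linear_combination (-(r * q)) * h5
    rw [this]
    module
  rw [e2]
  rw [← e1]
  congr 1
  module

end ex

end JRB3
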