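import Mathlib
import Pool.Agent.H241R2.RBW.Lower3

/-!
# Assembly
-/

namespace JRB3

open JRB JRB2 Matrix Module

set_option linter.unusedSectionVars false

section fin

variable {F : Type*} [Field F] [CharZero F] {n : ℕ} {S : Matrix (Fin n) (Fin n) F}

/-- powers of `R 1` -/
theorem pow_bound (hn : 3 ≤ n) (hS : Sᵀ = S) (hu : IsUnit S.det) (w : ℕ)
    (hw : ∀ U : Submodule F (Fin n → F), (∀ u ∈ U, ∀ v ∈ U, bf S u v = 0) → finrank F U ≤ w)
    (M : Matrix (Fin n) (Fin n) F →ₗ[F] Matrix (Fin n) (Fin n) F) (hM : IsRB F (jmul F) M)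
    (hτ : ∀ y, adjS S (M y) = M y) :
    (M 1) ^ (min (w + 1) ((n + 1) / 2)) = 0 := by
  classical
  have hnil := nilpotent_one M hM
  have hex : ∃ m, (M 1) ^ m = 0 := hnil
  set m := Nat.find hex with hm
  have hm0 : (M 1) ^ m = 0 := Nat.find_spec hex
  have hmin : ∀ j, j < m → (M 1) ^ j ≠ 0 := fun j hj => Nat.find_min hex hj
  have hmb : m ≤ min (w + 1) ((n + 1) / 2) := by
    rcases Nat.lt_or_ge m 2 with h | h
    · apply le_min <;> omega
    · have h1 : (M 1) ^ (m - 1) ≠ 0 := hmin _ (by omega)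
      have h3 : 3 ≤ m → 3 ≤ rk (Matrix.toLin' (M 1)) (m - 2) :=
        fun h3 => rank_three hS hu M hM hτ m h3 hm0 h1
      have g0 : (Matrix.toLin' (M 1)) ^ m = 0 := by rw [JRB2.toLin_pow, hm0, map_zero]
      have g1 : (Matrix.toLin' (M 1)) ^ (m - 1) ≠ 0 := by
        rw [JRB2.toLin_pow]
        intro h4
        exact h1 ((LinearEquiv.map_eq_zero_iff _).1 h4)
      apply le_min
      · obtain ⟨W, hW, hWd⟩ := exists_isotropic (F := F) (bf S) (Matrix.toLin' (M 1)) bf_zero_left
          (fun u v => by rw [Matrix.toLin'_apply, Matrix.toLin'_apply]; exact bf_adj hu (hτ 1) u v)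
          m h g0 g1 h3
        have := hw W hW
        omega
      · rcases Nat.lt_or_ge m 3 with h' | h'
        · omega
        · have h5 := rk_growth _ m h' g0 g1 (h3 h') 0 (by omega)
          rw [rk_zero, Module.finrank_fin_fun] at h5
          have h6 := rk_pos _ (m - 1) g1
          omega
  exact pow_eq_zero_of_le hmb hm0

theorem wone_of (hS : Sᵀ = S)
    (hw : ∀ U : Submodule F (Fin n → F), (∀ u ∈ U, ∀ v ∈ U, bf S u v = 0) → finrank F U ≤ 1) : WOne S := by
  intro u v hu0 huu huv hvv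
  by_contra hcon
  push Not at hcon
  have hli : LinearIndependent F ![u, v] := by
    rw [LinearIndependent.pair_iff]
    intro s t hst
    by_cases ht : t = 0
    · rw [ht, zero_smul, add_zero] at hst
      exact ⟨(smul_eq_zero.mp hst).resolve_right hu0, ht⟩
    · exfalso
      apply hcon (-(t⁻¹ * s))
      have h1 : t • v = -(s • u) := by rw [eq_neg_iff_add_eq_zero, add_comm]; exact hst
      have h2 : v = t⁻¹ • (t • v) := by rw [smul_smul, inv_mul_cancel₀ ht, one_smul]
      rw [h2, h1, neg_smul, mul_smul, smul_neg]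
  have hfr : finrank F (Submodule.span F (Set.range ![u, v])) = 2 := by
    rw [finrank_span_eq_card hli]; simp
  have hr : Set.range ![u, v] = {u, v} := by
    rw [Matrix.range_cons, Matrix.range_cons, Matrix.range_empty, Set.union_empty]; rfl
  have h3 := hw (Submodule.span F (Set.range ![u, v])) (by
    intro x hx y hy
    rw [hr, Submodule.mem_span_pair] at hx hy
    obtain ⟨p, q, rfl⟩ := hx
    obtain ⟨r, s, rfl⟩ := hy
    rw [bf_add_left, bf_add_right, bf_add_right, bf_smul_left, bf_smul_left, bf_smul_left, bf_smul_left,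
      bf_smul_right, bf_smul_right, bf_smul_right, bf_smul_right, huu, huv, hvv, bf_comm hS v u, huv]
    ring)
  omega

theorem witt_two_le (hS : Sᵀ = S) (hu : IsUnit S.det) (U : Submodule F (Fin n → F))
    (hU : ∀ u ∈ U, ∀ v ∈ U, bf S u v = 0) : 2 * finrank F U ≤ n := by
  obtain ⟨P, Q, hPP, hQQ, hQP, hPQ⟩ := exists_PQ hS hu U hU rfl
  let ψ : ((Fin (finrank F U) → F) × (Fin (finrank F U) → F)) →ₗ[F] (Fin n → F) :=
    (Matrix.toLin' P).coprod (Matrix.toLin' Q)
  have hinj : Function.Injective ψ := by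
    rw [injective_iff_map_eq_zero]
    rintro ⟨c, d⟩ hcd
    have h2 : P *ᵥ c + Q *ᵥ d = 0 := hcd
    have h3 := congrArg (fun v => (Qᵀ * S) *ᵥ v) h2
    have h4 := congrArg (fun v => (Pᵀ * S) *ᵥ v) h2
    simp only [Matrix.mulVec_add, Matrix.mulVec_mulVec, hPP, hQQ, hQP, hPQ, Matrix.one_mulVec, Matrix.zero_mulVec,
      Matrix.mulVec_zero, add_zero, zero_add] at h3 h4
    rw [h3, h4]; rfl
  have h5 := LinearMap.finrank_le_finrank_of_injective hinj
  rw [Module.finrank_prod, Module.finrank_fin_fun, Module.finrank_fin_fun] at h5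
  omega

/-- the two upper bounds in Witt index at most one -/
theorem upper_one (hn : 3 ≤ n) (hS : Sᵀ = S) (hu : IsUnit S.det)
    (hw : ∀ U : Submodule F (Fin n → F), (∀ u ∈ U, ∀ v ∈ U, bf S u v = 0) → finrank F U ≤ 1)
    (R : Herm (adjS S) →ₗ[F] Herm (adjS S)) (hR : IsRB F (hermMul (adjS S) (adjS_mul hu)) R) :
    R ^ 3 = 0 ∧ (n = 3 → R ^ 2 = 0) := by
  have hττ : ∀ x, adjS S (adjS S x) = x := adjS_adjS hS hu
  have hM := ext0_RB (adjS S) (adjS_mul hu) hττ R hR
  have hMpow := ext0_pow (adjS S) hττ R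
  have hτ : ∀ y, adjS S (ext0 (adjS S) hττ R y) = ext0 (adjS S) hττ R y := fun y => (R (proj (adjS S) hττ y)).2
  set M := ext0 (adjS S) hττ R with hMdef
  have hpow := pow_bound hn hS hu 1 hw M hM hτ
  have hmin : min (1 + 1) ((n + 1) / 2) = 2 := by omega
  rw [hmin, pow_two] at hpow
  by_cases hne : M 1 = 0
  · have h1 := general_bound M hM 1 (by rw [hne, pow_one])
    have h2 : R ^ 2 = 0 := by
      ext x : 2
      have h2 := hMpow 2 x
      rw [show (2 : ℕ) = 2 * 1 from rfl, h1] at h2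
      rw [show (2 : ℕ) = 2 * 1 from rfl, ← h2]; rfl
    exact ⟨pow_eq_zero_of_le (by norm_num) h2, fun _ => h2⟩
  · obtain ⟨e, c, he, hc, hee, hE⟩ := exists_e hS hu (wone_of hS hw) (M 1) (hτ 1) hpow hne
    constructor
    · ext x : 2
      have h2 := hMpow 3 x
      rw [← h2]
      have h3 := (N_three M hM hS hu (wone_of hS hw) hτ hpow e c he hc hee hE hne x.1).1
      rw [pow_succ, pow_succ, pow_one, Module.End.mul_apply, Module.End.mul_apply, h3]; rfl
    · intro hn3
      ext x : 2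
      have h2 := hMpow 2 x
      rw [← h2]
      have h3 := three_main M hM hS hu (wone_of hS hw) hτ hpow e c he hc hee hE hne hn3 x.1 x.2
      rw [pow_succ, pow_one, Module.End.mul_apply, h3]; rfl

/-- `n ≥ 4` and an isotropic vector: an operator with nonzero square -/
theorem lower_one (hn : 4 ≤ n) (hS : Sᵀ = S) (hu : IsUnit S.det)
    (hw : ∀ U : Submodule F (Fin n → F), (∀ u ∈ U, ∀ v ∈ U, bf S u v = 0) → finrank F U ≤ 1)
    (e : Fin n → F) (he : e ≠ 0) (hee : bf S e e = 0) :
    ∃ R : Herm (adjS S) →ₗ[F] Herm (adjS S), IsRB F (hermMul (adjS S) (adjS_mul hu)) R ∧ R ^ 2 ≠ 0 := by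
  have hW := wone_of hS hw
  obtain ⟨c, hec, -, hcc⟩ := exists_h (by omega) hW e e he hee (fun _ => rfl)
  obtain ⟨t, het, hct, htt⟩ := exists_h (by omega) hW e c he hee (fun h => by omega)
  have hce : bf S c e = 0 := by rw [bf_comm hS]; exact hec
  have hte : bf S t e = 0 := by rw [bf_comm hS]; exact het
  have htc : bf S t c = 0 := by rw [bf_comm hS]; exact hct
  set E := Matrix.vecMulVec e (S *ᵥ e) with hEdef
  set C := Matrix.vecMulVec c (S *ᵥ c) with hCdef
  set P := 1 - (bf S c c)⁻¹ • C with hPdef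
  have hEa : adjS S E = E := adjS_vec hS hu e
  have hPa : adjS S P = P := by rw [hPdef, map_sub, map_smul, adjS_one hu, adjS_vec hS hu]
  have hEv : ∀ v, E *ᵥ v = bf S e v • e := fun v => by rw [hEdef, vmv_mulVec, dot_eq hS]
  have hCv : ∀ v, C *ᵥ v = bf S c v • c := fun v => by rw [hCdef, vmv_mulVec, dot_eq hS]
  have hPv : ∀ v, P *ᵥ v = v - ((bf S c c)⁻¹ * bf S c v) • c := fun v => by
    rw [hPdef, Matrix.sub_mulVec, Matrix.one_mulVec, Matrix.smul_mulVec, hCv, smul_smul]
  have hEE : E * E = 0 := by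
    apply mat_ext; intro v
    rw [← Matrix.mulVec_mulVec, hEv v, Matrix.mulVec_smul, hEv e, hee, zero_smul, smul_zero, Matrix.zero_mulVec]
  have hEP : E * P = E := by
    apply mat_ext; intro v
    rw [← Matrix.mulVec_mulVec, hPv v, Matrix.mulVec_sub, Matrix.mulVec_smul, hEv c, hec, zero_smul, smul_zero,
      sub_zero]
  have hPE : P * E = E := by
    apply mat_ext; intro v
    rw [← Matrix.mulVec_mulVec, hEv v, Matrix.mulVec_smul, hPv e, hce, mul_zero, zero_smul, sub_zero]
  have hPc : P *ᵥ c = 0 := by rw [hPv, inv_mul_cancel₀ hcc, one_smul, sub_self]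
  have hPt : P *ᵥ t = t := by rw [hPv, hct, mul_zero, zero_smul, sub_zero]
  have hPP : P * P = P := by
    apply mat_ext; intro v
    rw [← Matrix.mulVec_mulVec, hPv v, Matrix.mulVec_sub, Matrix.mulVec_smul, hPc, smul_zero, sub_zero, hPv v]
  have hEt : E *ᵥ t = 0 := by rw [hEv, het, zero_smul]
  have hEc : E *ᵥ c = 0 := by rw [hEv, hec, zero_smul]
  set N := exN S t c (bf S t t)⁻¹ E P with hNdef
  have hN := exN_RB hS hu t c (bf S t t)⁻¹ E P hEa hPa hEE hEP hPE hPP hEt hEc hPt hPc
  have hNa : ∀ y, adjS S (N y) = N y := by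
    intro y
    rw [hNdef, exN_apply, map_add, map_smul, map_smul, hEa, hPa]
  let R : Herm (adjS S) →ₗ[F] Herm (adjS S) :=
    LinearMap.codRestrict (Herm (adjS S)) (N ∘ₗ (Herm (adjS S)).subtype) (fun X => hNa X.1)
  have hRc : ∀ X : Herm (adjS S), (R X).1 = N X.1 := fun X => rfl
  refine ⟨R, ?_, ?_⟩
  · intro X Y
    apply Subtype.ext
    rw [hermMul_coe, hRc, hRc, hRc, Submodule.coe_add, hermMul_coe, hermMul_coe, hRc, hRc]
    exact hN X.1 Y.1
  · intro h
    have h1 : (R (R ⟨dt S t c, dt_adj hS hu t c⟩)).1 = 0 := by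
      have h2 : (R ^ 2) ⟨dt S t c, dt_adj hS hu t c⟩ = 0 := by rw [h]; rfl
      rw [pow_two, Module.End.mul_apply] at h2
      rw [h2]; rfl
    rw [hRc, hRc] at h1
    have e1 : N (dt S t c) = (bf S t t * bf S c c) • P := by
      rw [hNdef, exN_apply, dt_mulVec hS, dt_mulVec hS, hct, htc, bf_add_right, bf_smul_right, bf_smul_right,
        bf_add_right, bf_smul_right, bf_smul_right, htc]
      module
    have e2 : N P = E := by
      rw [hNdef, exN_apply, hPt, hPc, bf_zero_right, zero_smul, add_zero, inv_mul_cancel₀ htt, one_smul]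
    rw [e1, map_smul, e2] at h1
    have hE0 : E ≠ 0 := by
      apply Matrix.vecMulVec_ne_zero he
      intro h0
      apply he
      apply bf_nondeg hu
      intro v
      unfold bf
      rw [h0, dotProduct_zero]
    rcases smul_eq_zero.mp h1 with h3 | h3
    · exact mul_ne_zero htt hcc h3
    · exact hE0 h3

end fin

end JRB3
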