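import Mathlib
import Pool.Agent.H241R2.RBW.Final

/-!
# General relations when `(R 1)^2 = 0`
-/

namespace JRB3

open JRB JRB2 Matrix Module

set_option linter.unusedSectionVars false

section gen

variable {F : Type*} [Field F] [CharZero F] {A : Type*} [Ring A] [Algebra F A]
variable (N : A →ₗ[F] A) (hN : IsRB F (jmul F) N) (ha2 : N 1 * N 1 = 0)

include hN ha2

/-- `N⁴ = 0` -/
theorem N_four (y : A) : N (N (N (N y))) = 0 := by
  have h := general_bound N hN 2 (by rw [pow_two]; exact ha2)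
  have h1 : (N ^ (2 * 2)) y = 0 := by rw [h]; rfl
  simpa [pow_succ] using h1

/-- `N (a ∘ N y) = 0` -/
theorem N_aN (y : A) : N (jmul F (N 1) (N y)) = 0 := by
  have h := rel_top N hN 1 0 (by rw [pow_succ, pow_one]; exact ha2) y
  rw [pow_one, pow_zero, mul_one, one_mul] at h
  unfold jmul
  rw [map_smul, h, smul_zero]

/-- `N³ = a ∘ N²` -/
theorem N_three_eq (y : A) : N (N (N y)) = jmul F (N 1) (N (N y)) := by
  have h := N_one_rel N hN (N y)
  rw [N_aN N hN ha2 y, zero_add] at h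
  exact h.symm

/-- `a c a = 0` for `c` in the image of `N²` -/
theorem aca (y : A) : N 1 * N (N y) * N 1 = 0 := by
  have h := N_one_rel N hN (N (N y))
  rw [← N_three_eq N hN ha2 y, N_four N hN ha2, N_three_eq N hN ha2 y, add_zero] at h
  unfold jmul at h
  have h3 : (2 : F)⁻¹ • (2 : F)⁻¹ • ((2 : F) • (N 1 * N (N y) * N 1)) = 0 := by
    have e : (2 : F)⁻¹ • (N 1 * ((2 : F)⁻¹ • (N 1 * N (N y) + N (N y) * N 1)) +
        ((2 : F)⁻¹ • (N 1 * N (N y) + N (N y) * N 1)) * N 1) =
        (2 : F)⁻¹ • (2 : F)⁻¹ • ((N 1 * N 1) * N (N y) + (2 : F) • (N 1 * N (N y) * N 1) + N (N y) * (N 1 * N 1)) := by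
      rw [mul_smul_comm, smul_mul_assoc, ← smul_add, two_smul]
      congr 2
      noncomm_ring
    rw [ha2, zero_mul, mul_zero, zero_add, add_zero] at e
    rw [← e]; exact h
  have h2 : (2 : F) ≠ 0 := two_ne_zero
  have h4 := (smul_eq_zero.mp h3).resolve_left (inv_ne_zero h2)
  have h5 := (smul_eq_zero.mp h4).resolve_left (inv_ne_zero h2)
  exact (smul_eq_zero.mp h5).resolve_left h2

/-- squares of elements of `B₂` are in `B₂` -/
theorem sq_mem (y : A) : ∃ w, N (N w) = N (N y) * N (N y) := by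
  refine ⟨(2 : F) • (jmul F (N (N y)) y + jmul F (N y) (N y)), ?_⟩
  have h := hN (N y) y
  rw [map_smul, map_smul, ← h, sq_eq N hN (N y)]

/-- `[c,[c,a]] = 0` for `c` in the image of `N²` -/
theorem comm2 (y : A) : N (N y) * N (N y) * N 1 + N 1 * (N (N y) * N (N y)) =
    (2 : F) • (N (N y) * N 1 * N (N y)) := by
  obtain ⟨w, hw⟩ := sq_mem N hN ha2 y
  have h1 := N_three_eq N hN ha2 w
  rw [hw] at h1
  have h2 := hN (N (N y)) (N y)
  have h3 : N (jmul F (N (N (N y))) (N y)) = 0 := by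
    rw [jmul_comm']
    exact ker_mod N hN y _ (N_four N hN ha2 y)
  rw [map_add, h3, zero_add, jmul_self, h1, N_three_eq N hN ha2 y] at h2
  unfold jmul at h2
  have h5 : (2 : F) ≠ 0 := two_ne_zero
  have e : (2 : F)⁻¹ • ((2 : F)⁻¹ • (N 1 * N (N y) + N (N y) * N 1) * N (N y) +
      N (N y) * (2 : F)⁻¹ • (N 1 * N (N y) + N (N y) * N 1)) =
      (2 : F)⁻¹ • (2 : F)⁻¹ • (N 1 * (N (N y) * N (N y)) + (2 : F) • (N (N y) * N 1 * N (N y)) + N (N y) * N (N y) * N 1) := by
    rw [mul_smul_comm, smul_mul_assoc, ← smul_add, two_smul]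
    congr 2
    noncomm_ring
  rw [e] at h2
  have h6 := smul_right_injective A (inv_ne_zero h5) h2
  have h7 := congrArg (fun w => (2 : F) • w) h6
  simp only [smul_smul] at h7
  rw [mul_inv_cancel₀ h5, one_smul] at h7
  have e2 : N (N y) * N (N y) * N 1 + N 1 * (N (N y) * N (N y)) - (2 : F) • (N (N y) * N 1 * N (N y)) =
      (2 : F) • (N 1 * (N (N y) * N (N y)) + N (N y) * N (N y) * N 1) - (N 1 * (N (N y) * N (N y)) +
        (2 : F) • (N (N y) * N 1 * N (N y)) + N (N y) * N (N y) * N 1) := by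
    rw [two_smul, two_smul]; abel
  rw [← sub_eq_zero, e2, h7, sub_self]

end gen

section sing

variable {F : Type*} [Field F] [CharZero F] {n : ℕ} {S : Matrix (Fin n) (Fin n) F}
variable (N : Matrix (Fin n) (Fin n) F →ₗ[F] Matrix (Fin n) (Fin n) F) (hN : IsRB F (jmul F) N)

include hN

theorem pow_mem (y : Matrix (Fin n) (Fin n) F) (k : ℕ) : ∃ w, N w = (N y) ^ (k + 1) := by
  induction k with
  | zero => exact ⟨y, by rw [zero_add, pow_one]⟩
  | succ k ih =>
    obtain ⟨w, hw⟩ := ih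
    refine ⟨jmul F (N y) w + jmul F y (N w), ?_⟩
    rw [← hN y w, hw, jmul_of_commute (by rw [← pow_succ, ← pow_succ']), ← pow_succ']

/-- every element of the image is singular -/
theorem sing (hn : 1 ≤ n) (y : Matrix (Fin n) (Fin n) F) : ∃ v, v ≠ 0 ∧ N y *ᵥ v = 0 := by
  classical
  have : Nonempty (Fin n) := ⟨⟨0, hn⟩⟩
  rw [Matrix.exists_mulVec_eq_zero_iff]
  by_contra hdet
  -- `1` is a polynomial without constant term
  have h1 := Matrix.aeval_self_charpoly (N y)
  rw [Polynomial.aeval_eq_sum_range, Finset.sum_range_succ'] at h1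
  have hc : (N y).charpoly.coeff 0 ≠ 0 := by
    intro h0
    apply hdet
    rw [Matrix.det_eq_sign_charpoly_coeff, h0, mul_zero]
  choose w hw using fun k => pow_mem N hN y k
  apply one_not_mem N hN (-((N y).charpoly.coeff 0)⁻¹ • ∑ k ∈ Finset.range (N y).charpoly.natDegree,
    (N y).charpoly.coeff (k + 1) • w k)
  rw [map_smul, map_sum]
  have h2 : ∑ k ∈ Finset.range (N y).charpoly.natDegree, N ((N y).charpoly.coeff (k + 1) • w k) =
      -((N y).charpoly.coeff 0 • 1) := by
    rw [eq_neg_iff_add_eq_zero, ← h1, pow_zero]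
    congr 1
    refine Finset.sum_congr rfl fun k _ => ?_
    rw [map_smul, hw]
  rw [h2, smul_neg, neg_smul, neg_neg, smul_smul, inv_mul_cancel₀ hc, one_smul]

end sing

section basis4

variable {F : Type*} [Field F] [CharZero F] {S : Matrix (Fin 4) (Fin 4) F}

/-- a hyperbolic basis of a four-dimensional space -/
structure Hyp (S : Matrix (Fin 4) (Fin 4) F) (e e' f f' : Fin 4 → F) : Prop where
  ee : bf S e e = 0
  ee' : bf S e e' = 0
  e'e' : bf S e' e' = 0
  ff : bf S f f = 0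
  ff' : bf S f f' = 0
  f'f' : bf S f' f' = 0
  ef : bf S e f = 1
  e'f' : bf S e' f' = 1
  ef' : bf S e f' = 0
  e'f : bf S e' f = 0

theorem Hyp.dec (hS : Sᵀ = S) {e e' f f' : Fin 4 → F} (h : Hyp S e e' f f') (v : Fin 4 → F) :
    v = bf S f v • e + bf S f' v • e' + bf S e v • f + bf S e' v • f' := by
  have fe : bf S f e = 1 := by rw [bf_comm hS]; exact h.ef
  have f'e' : bf S f' e' = 1 := by rw [bf_comm hS]; exact h.e'f'
  have f'e : bf S f' e = 0 := by rw [bf_comm hS]; exact h.ef'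
  have fe' : bf S f e' = 0 := by rw [bf_comm hS]; exact h.e'f
  have e'e : bf S e' e = 0 := by rw [bf_comm hS]; exact h.ee'
  have f'f : bf S f' f = 0 := by rw [bf_comm hS]; exact h.ff'
  let φ : (Fin 4 → F) →ₗ[F] (Fin 4 → F) :=
    { toFun := fun v => ![bf S f v, bf S f' v, bf S e v, bf S e' v]
      map_add' := by intro a b; ext i; fin_cases i <;> simp [bf_add_right]
      map_smul' := by intro a b; ext i; fin_cases i <;> simp [bf_smul_right] }
  have hsurj : Function.Surjective φ := by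
    intro c
    refine ⟨c 0 • e + c 1 • e' + c 2 • f + c 3 • f', ?_⟩
    ext i
    fin_cases i <;>
    simp [φ, bf_add_right, bf_smul_right, h.ee, h.ee', h.e'e', h.ff, h.ff', h.f'f', h.ef, h.e'f', h.ef', h.e'f, fe, f'e',
      f'e, fe', e'e, f'f]
  have hinj := (LinearMap.injective_iff_surjective (f := φ)).2 hsurj
  apply hinj
  show (![bf S f v, bf S f' v, bf S e v, bf S e' v] : Fin 4 → F) = _
  ext i
  fin_cases i <;>
  simp [φ, bf_add_right, bf_smul_right, h.ee, h.ee', h.e'e', h.ff, h.ff', h.f'f', h.ef, h.e'f', h.ef', h.e'f, fe, f'e',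
    f'e, fe', e'e, f'f]

end basis4

end JRB3
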