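import Mathlib
import Pool.Agent.H241R2.RBW.Four0

/-!
# Coordinates of self-adjoint operators in a hyperbolic basis
-/

namespace JRB3

open JRB JRB2 Matrix Module

set_option linter.unusedSectionVars false

section coord

variable {F : Type*} [Field F] [CharZero F] {S : Matrix (Fin 4) (Fin 4) F}

/-- the pairing of `u` with `X v` -/
def P (S : Matrix (Fin 4) (Fin 4) F) (X : Matrix (Fin 4) (Fin 4) F) (u v : Fin 4 → F) : F := bf S u (X *ᵥ v)

/-- `u ⊗ u` -/
def E (S : Matrix (Fin 4) (Fin 4) F) (u : Fin 4 → F) : Matrix (Fin 4) (Fin 4) F := Matrix.vecMulVec u (S *ᵥ u)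

theorem E_mulVec (hS : Sᵀ = S) (u w : Fin 4 → F) : E S u *ᵥ w = bf S u w • u := by
  unfold E; rw [vmv_mulVec, dot_eq hS]

theorem E_adj (hS : Sᵀ = S) (hu : IsUnit S.det) (u : Fin 4 → F) : adjS S (E S u) = E S u := adjS_vec hS hu u

theorem P_symm (hS : Sᵀ = S) (hu : IsUnit S.det) {X : Matrix (Fin 4) (Fin 4) F} (hX : adjS S X = X)
    (u v : Fin 4 → F) : P S X u v = P S X v u := by
  unfold P; rw [← bf_adj hu hX, bf_comm hS]

theorem P_add (X Y : Matrix (Fin 4) (Fin 4) F) (u v : Fin 4 → F) : P S (X + Y) u v = P S X u v + P S Y u v := by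
  unfold P; rw [Matrix.add_mulVec, bf_add_right]

theorem P_smul (r : F) (X : Matrix (Fin 4) (Fin 4) F) (u v : Fin 4 → F) : P S (r • X) u v = r * P S X u v := by
  unfold P; rw [Matrix.smul_mulVec, bf_smul_right]

theorem P_sub (X Y : Matrix (Fin 4) (Fin 4) F) (u v : Fin 4 → F) : P S (X - Y) u v = P S X u v - P S Y u v := by
  rw [sub_eq_add_neg, ← neg_one_smul F Y, P_add, P_smul]; ring

theorem P_zero (u v : Fin 4 → F) : P S 0 u v = 0 := by
  have h := P_smul (S := S) 0 0 u v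
  rw [zero_smul, zero_mul] at h
  exact h

theorem bf_zr (u : Fin 4 → F) : bf S u 0 = 0 := by
  have h := bf_smul_right (S := S) 0 u 0
  simpa using h

theorem Hyp.bf_dec (hS : Sᵀ = S) {e e' f f' : Fin 4 → F} (h : Hyp S e e' f f') (u v : Fin 4 → F) :
    bf S u v = bf S f u * bf S e v + bf S f' u * bf S e' v + bf S e u * bf S f v + bf S e' u * bf S f' v := by
  conv_lhs => rw [h.dec hS u]
  simp only [bf_add_left, bf_smul_left]

theorem P_jmul (hS : Sᵀ = S) (hu : IsUnit S.det) {e e' f f' : Fin 4 → F} (h : Hyp S e e' f f')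
    {X Y : Matrix (Fin 4) (Fin 4) F} (hX : adjS S X = X) (hY : adjS S Y = Y) (u v : Fin 4 → F) :
    P S (jmul F X Y) u v = (2 : F)⁻¹ * (
      (P S X f u * P S Y e v + P S X f' u * P S Y e' v + P S X e u * P S Y f v + P S X e' u * P S Y f' v) +
      (P S Y f u * P S X e v + P S Y f' u * P S X e' v + P S Y e u * P S X f v + P S Y e' u * P S X f' v)) := by
  unfold jmul
  rw [P_smul, P_add]
  congr 1
  unfold P
  rw [← Matrix.mulVec_mulVec, ← Matrix.mulVec_mulVec, 
    ← bf_adj hu hX u (Y *ᵥ v), ← bf_adj hu hY u (X *ᵥ v),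
    h.bf_dec hS (X *ᵥ u) (Y *ᵥ v), h.bf_dec hS (Y *ᵥ u) (X *ᵥ v)]

/-- self-adjoint operators are equal if their pairings on the basis agree -/
theorem Hyp.ext (hS : Sᵀ = S) (hu : IsUnit S.det) {e e' f f' : Fin 4 → F} (h : Hyp S e e' f f')
    {X Y : Matrix (Fin 4) (Fin 4) F} (hX : adjS S X = X) (hY : adjS S Y = Y)
    (h1 : P S X e e = P S Y e e) (h2 : P S X e' e = P S Y e' e) (h3 : P S X e' e' = P S Y e' e')
    (h4 : P S X f e = P S Y f e) (h5 : P S X f e' = P S Y f e') (h6 : P S X f' e = P S Y f' e)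
    (h7 : P S X f' e' = P S Y f' e') (h8 : P S X f f = P S Y f f) (h9 : P S X f' f = P S Y f' f)
    (h10 : P S X f' f' = P S Y f' f') : X = Y := by
  have key : ∀ v, P S X e v = P S Y e v → P S X e' v = P S Y e' v → P S X f v = P S Y f v →
      P S X f' v = P S Y f' v → X *ᵥ v = Y *ᵥ v := by
    intro v g1 g2 g3 g4
    rw [h.dec hS (X *ᵥ v), h.dec hS (Y *ᵥ v)]
    unfold P at g1 g2 g3 g4
    rw [g1, g2, g3, g4]
  have sy : ∀ u v, P S X u v = P S Y u v → P S X v u = P S Y v u := fun u v g => by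
    rw [P_symm hS hu hX, g, P_symm hS hu hY]
  apply mat_ext
  intro v
  rw [h.dec hS v]
  simp only [Matrix.mulVec_add, Matrix.mulVec_smul]
  rw [key e h1 h2 h4 h6, key e' (sy _ _ h2) h3 h5 h7, key f (sy _ _ h4) (sy _ _ h5) h8 h9,
    key f' (sy _ _ h6) (sy _ _ h7) (sy _ _ h9) h10]

theorem P_E (hS : Sᵀ = S) (u v w : Fin 4 → F) : P S (E S u) v w = bf S v u * bf S u w := by
  unfold P; rw [E_mulVec hS, bf_smul_right]; ring

theorem P_dt (hS : Sᵀ = S) (u u' v w : Fin 4 → F) :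
    P S (dt S u u') v w = bf S v u * bf S u' w + bf S v u' * bf S u w := by
  unfold P; rw [dt_mulVec hS, bf_add_right, bf_smul_right, bf_smul_right]; ring

/-- the full multiplication table of the basis, as a list of rewriting rules -/
theorem Hyp.tab (hS : Sᵀ = S) {e e' f f' : Fin 4 → F} (h : Hyp S e e' f f') :
    bf S f e = 1 ∧ bf S f' e' = 1 ∧ bf S f' e = 0 ∧ bf S f e' = 0 ∧ bf S e' e = 0 ∧ bf S f' f = 0 := by
  refine ⟨?_, ?_, ?_, ?_, ?_, ?_⟩
  · rw [bf_comm hS]; exact h.ef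
  · rw [bf_comm hS]; exact h.e'f'
  · rw [bf_comm hS]; exact h.ef'
  · rw [bf_comm hS]; exact h.e'f
  · rw [bf_comm hS]; exact h.ee'
  · rw [bf_comm hS]; exact h.ff'

theorem Hyp.expand (hS : Sᵀ = S) (hu : IsUnit S.det) {e e' f f' : Fin 4 → F} (h : Hyp S e e' f f')
    {X : Matrix (Fin 4) (Fin 4) F} (hX : adjS S X = X) :
    X = P S X f f • E S e + P S X f' f • dt S e e' + P S X f' f' • E S e' + P S X f e • dt S e f +
      P S X f e' • dt S e f' + P S X f' e • dt S e' f + P S X f' e' • dt S e' f' + P S X e e • E S f +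
      P S X e' e • dt S f f' + P S X e' e' • E S f' := by
  obtain ⟨t1, t2, t3, t4, t5, t6⟩ := h.tab hS
  apply h.ext hS hu hX
  · simp only [map_add, map_smul, E_adj hS hu, dt_adj hS hu]
  all_goals
    simp only [P_add, P_smul, P_E hS, P_dt hS, t1, t2, t3, t4, t5, t6, h.ee, h.ee', h.e'e', h.ff, h.ff', h.f'f',
      h.ef, h.e'f', h.ef', h.e'f]
    ring

end coord

end JRB3
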