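import Mathlib
import Pool.Agent.H241R2.RBW.Four1

/-!
# The idempotent case
-/

namespace JRB3

open JRB JRB2 Matrix Module

set_option linter.unusedSectionVars false
set_option linter.unusedSimpArgs false

section idem

variable {F : Type*} [Field F] [CharZero F] {S : Matrix (Fin 4) (Fin 4) F}

theorem det2 {A B C D x y : F} (h : x ≠ 0 ∨ y ≠ 0) (h1 : A * x + B * y = 0) (h2 : C * x + D * y = 0) :
    A * D - B * C = 0 := by
  rcases h with h | h
  · have : (A * D - B * C) * x = 0 := by linear_combination D * h1 - B * h2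
    exact (mul_eq_zero.mp this).resolve_right h
  · have : (A * D - B * C) * y = 0 := by linear_combination A * h2 - C * h1
    exact (mul_eq_zero.mp this).resolve_right h

theorem Hyp.zero_of (hS : Sᵀ = S) {e e' f f' : Fin 4 → F} (h : Hyp S e e' f f') {v : Fin 4 → F}
    (h1 : bf S e v = 0) (h2 : bf S e' v = 0) (h3 : bf S f v = 0) (h4 : bf S f' v = 0) : v = 0 := by
  rw [h.dec hS v, h1, h2, h3, h4]; simp

theorem P_act (hu : IsUnit S.det) {X : Matrix (Fin 4) (Fin 4) F} (hX : adjS S X = X)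
    (Y : Matrix (Fin 4) (Fin 4) F) (u v : Fin 4 → F) :
    P S (jmul F X Y) u v = (2 : F)⁻¹ * (P S Y (X *ᵥ u) v + P S Y u (X *ᵥ v)) := by
  unfold jmul
  rw [P_smul, P_add]
  congr 1
  unfold P
  rw [← Matrix.mulVec_mulVec, ← Matrix.mulVec_mulVec, ← bf_adj hu hX u (Y *ᵥ v)]

theorem P_sl (Y : Matrix (Fin 4) (Fin 4) F) (c : F) (u v : Fin 4 → F) : P S Y (c • u) v = c * P S Y u v := by
  unfold P; rw [bf_smul_left]

theorem P_sr (Y : Matrix (Fin 4) (Fin 4) F) (c : F) (u v : Fin 4 → F) : P S Y u (c • v) = c * P S Y u v := by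
  unfold P; rw [Matrix.mulVec_smul, bf_smul_right]

theorem P_al (Y : Matrix (Fin 4) (Fin 4) F) (u u' v : Fin 4 → F) : P S Y (u + u') v = P S Y u v + P S Y u' v := by
  unfold P; rw [bf_add_left]

theorem P_ar (Y : Matrix (Fin 4) (Fin 4) F) (u v v' : Fin 4 → F) : P S Y u (v + v') = P S Y u v + P S Y u v' := by
  unfold P; rw [Matrix.mulVec_add, bf_add_right]

theorem P_eig (hu : IsUnit S.det) {X : Matrix (Fin 4) (Fin 4) F} (hX : adjS S X = X)
    (Y : Matrix (Fin 4) (Fin 4) F) {u v : Fin 4 → F} {c d : F} (h1 : X *ᵥ u = c • u) (h2 : X *ᵥ v = d • v) :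
    P S (jmul F X Y) u v = (2 : F)⁻¹ * (c + d) * P S Y u v := by
  rw [P_act hu hX, h1, h2, P_sl, P_sr]; ring

variable (N : Matrix (Fin 4) (Fin 4) F →ₗ[F] Matrix (Fin 4) (Fin 4) F) (hN : IsRB F (jmul F) N)

include hN

theorem beta_mem (hS : Sᵀ = S) (hu : IsUnit S.det) (hτ : ∀ y, adjS S (N y) = N y)
    {e e' f f' : Fin 4 → F} (h : Hyp S e e' f f') (y : Matrix (Fin 4) (Fin 4) F) (hp : N y = dt S e f)
    (z : Matrix (Fin 4) (Fin 4) F) :
    ∃ w, N w = P S (N z) e' e' • E S f' + P S (N z) f' e' • dt S e' f' + P S (N z) f' f' • E S e' := by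
  obtain ⟨t1, t2, t3, t4, t5, t6⟩ := h.tab hS
  have two : (2 : F) ≠ 0 := two_ne_zero
  obtain ⟨w1, hw1⟩ : ∃ w, N w = jmul F (dt S e f) (N z) := ⟨_, by rw [← hp]; exact (hN y z).symm⟩
  obtain ⟨w2, hw2⟩ : ∃ w, N w = jmul F (dt S e f) (N w1) := ⟨_, by rw [← hp]; exact (hN y w1).symm⟩
  refine ⟨z - (3 : F) • w1 + (2 : F) • w2, ?_⟩
  have pe : dt S e f *ᵥ e = (1 : F) • e := by rw [dt_mulVec hS, t1, h.ee, zero_smul, add_zero]
  have pf : dt S e f *ᵥ f = (1 : F) • f := by rw [dt_mulVec hS, h.ff, h.ef, zero_smul, zero_add]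
  have pe' : dt S e f *ᵥ e' = (0 : F) • e' := by rw [dt_mulVec hS, t4, h.ee']; simp
  have pf' : dt S e f *ᵥ f' = (0 : F) • f' := by rw [dt_mulVec hS, h.ff', h.ef']; simp
  have c1 : ∀ {u v : Fin 4 → F} {c d : F}, dt S e f *ᵥ u = c • u → dt S e f *ᵥ v = d • v →
      P S (N w1) u v = (2 : F)⁻¹ * (c + d) * P S (N z) u v := by
    intro u v c d h1 h2
    rw [hw1, P_eig hu (dt_adj hS hu _ _) _ h1 h2]
  have c2 : ∀ {u v : Fin 4 → F} {c d : F}, dt S e f *ᵥ u = c • u → dt S e f *ᵥ v = d • v →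
      P S (N w2) u v = (2 : F)⁻¹ * (c + d) * ((2 : F)⁻¹ * (c + d) * P S (N z) u v) := by
    intro u v c d h1 h2
    rw [hw2, P_eig hu (dt_adj hS hu _ _) _ h1 h2, c1 h1 h2]
  have c3 : ∀ {u v : Fin 4 → F} {c d : F}, dt S e f *ᵥ u = c • u → dt S e f *ᵥ v = d • v →
      P S (N (z - (3 : F) • w1 + (2 : F) • w2)) u v = (1 - (2 : F)⁻¹ * (c + d)) * (1 - (c + d)) * P S (N z) u v := by
    intro u v c d h1 h2
    rw [map_add, map_sub, map_smul, map_smul, P_add, P_sub, P_smul, P_smul, c2 h1 h2, c1 h1 h2]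
    field_simp
    ring
  apply h.ext hS hu (hτ _)
  · simp only [map_add, map_smul, E_adj hS hu, dt_adj hS hu]
  · rw [c3 pe pe]
    simp only [P_add, P_smul, P_E hS, P_dt hS, t1, t2, t3, t4, t5, t6, h.ee, h.ee', h.e'e', h.ff, h.ff', h.f'f',
      h.ef, h.e'f', h.ef', h.e'f]
    ring
  · rw [c3 pe' pe]
    simp only [P_add, P_smul, P_E hS, P_dt hS, t1, t2, t3, t4, t5, t6, h.ee, h.ee', h.e'e', h.ff, h.ff', h.f'f',
      h.ef, h.e'f', h.ef', h.e'f]
    ring
  · rw [c3 pe' pe']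
    simp only [P_add, P_smul, P_E hS, P_dt hS, t1, t2, t3, t4, t5, t6, h.ee, h.ee', h.e'e', h.ff, h.ff', h.f'f',
      h.ef, h.e'f', h.ef', h.e'f]
    ring
  · rw [c3 pf pe]
    simp only [P_add, P_smul, P_E hS, P_dt hS, t1, t2, t3, t4, t5, t6, h.ee, h.ee', h.e'e', h.ff, h.ff', h.f'f',
      h.ef, h.e'f', h.ef', h.e'f]
    ring
  · rw [c3 pf pe']
    simp only [P_add, P_smul, P_E hS, P_dt hS, t1, t2, t3, t4, t5, t6, h.ee, h.ee', h.e'e', h.ff, h.ff', h.f'f',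
      h.ef, h.e'f', h.ef', h.e'f]
    ring
  · rw [c3 pf' pe]
    simp only [P_add, P_smul, P_E hS, P_dt hS, t1, t2, t3, t4, t5, t6, h.ee, h.ee', h.e'e', h.ff, h.ff', h.f'f',
      h.ef, h.e'f', h.ef', h.e'f]
    ring
  · rw [c3 pf' pe']
    simp only [P_add, P_smul, P_E hS, P_dt hS, t1, t2, t3, t4, t5, t6, h.ee, h.ee', h.e'e', h.ff, h.ff', h.f'f',
      h.ef, h.e'f', h.ef', h.e'f]
    ring
  · rw [c3 pf pf]
    simp only [P_add, P_smul, P_E hS, P_dt hS, t1, t2, t3, t4, t5, t6, h.ee, h.ee', h.e'e', h.ff, h.ff', h.f'f',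
      h.ef, h.e'f', h.ef', h.e'f]
    ring
  · rw [c3 pf' pf]
    simp only [P_add, P_smul, P_E hS, P_dt hS, t1, t2, t3, t4, t5, t6, h.ee, h.ee', h.e'e', h.ff, h.ff', h.f'f',
      h.ef, h.e'f', h.ef', h.e'f]
    ring
  · rw [c3 pf' pf']
    simp only [P_add, P_smul, P_E hS, P_dt hS, t1, t2, t3, t4, t5, t6, h.ee, h.ee', h.e'e', h.ff, h.ff', h.f'f',
      h.ef, h.e'f', h.ef', h.e'f]
    ring

theorem idem_key (hS : Sᵀ = S) (hu : IsUnit S.det) (hτ : ∀ y, adjS S (N y) = N y)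
    {e e' f f' : Fin 4 → F} (h : Hyp S e e' f f') (y : Matrix (Fin 4) (Fin 4) F) (hp : N y = dt S e f)
    (α' : F) (hα' : α' ≠ 0) (hN1p : N (1 - dt S e f) = α' • E S e') (z : Matrix (Fin 4) (Fin 4) F) :
    P S (N z) e' e' = 0 ∧ P S (N z) f' e' = 0 := by
  obtain ⟨t1, t2, t3, t4, t5, t6⟩ := h.tab hS
  obtain ⟨w, hw⟩ := beta_mem N hN hS hu hτ h y hp z
  have hl : ∀ l : F, P S (N z) e' e' * (P S (N z) f' f' + l) - P S (N z) f' e' * P S (N z) f' e' = 0 := by
    intro l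
    obtain ⟨v, hv, hv0⟩ := sing N hN (by norm_num) (y + w + (l * α'⁻¹) • (1 - dt S e f))
    rw [map_add, map_add, map_smul, hp, hw, hN1p, smul_smul, inv_mul_cancel_right₀ hα'] at hv0
    have g1 := congrArg (bf S e) hv0
    have g2 := congrArg (bf S f) hv0
    have g3 := congrArg (bf S e') hv0
    have g4 := congrArg (bf S f') hv0
    simp only [Matrix.add_mulVec, Matrix.smul_mulVec, E_mulVec hS, dt_mulVec hS, bf_add_right, bf_smul_right,
      t1, t2, t3, t4, t5, t6, h.ee, h.ee', h.e'e', h.ff, h.ff', h.f'f', h.ef, h.e'f', h.ef', h.e'f, bf_zr] at g1 g2 g3 g4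
    have g1' : bf S e v = 0 := by linear_combination g1
    have g2' : bf S f v = 0 := by linear_combination g2
    have hne : bf S f' v ≠ 0 ∨ bf S e' v ≠ 0 := by
      by_contra hcon
      push Not at hcon
      exact hv (h.zero_of hS g1' hcon.2 g2' hcon.1)
    exact det2 hne (A := P S (N z) e' e') (B := P S (N z) f' e') (C := P S (N z) f' e')
      (D := P S (N z) f' f' + l) (by linear_combination g3) (by linear_combination g4)
  have l0 := hl 0
  have l1 := hl 1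
  have r1 : P S (N z) e' e' = 0 := by linear_combination l1 - l0
  refine ⟨r1, ?_⟩
  rw [r1] at l0
  have : P S (N z) f' e' * P S (N z) f' e' = 0 := by linear_combination -l0
  exact mul_self_eq_zero.mp this

end idem

end JRB3
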