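import Mathlib
import Pool.Agent.H241R2.RBW.Four2

/-!
# The idempotent case: contradiction
-/

namespace JRB3

open JRB JRB2 Matrix Module

set_option linter.unusedSectionVars false
set_option linter.unusedSimpArgs false

section idem

variable {F : Type*} [Field F] [CharZero F] {S : Matrix (Fin 4) (Fin 4) F}
variable (N : Matrix (Fin 4) (Fin 4) F →ₗ[F] Matrix (Fin 4) (Fin 4) F) (hN : IsRB F (jmul F) N)

include hN

theorem idem_false (hS : Sᵀ = S) (hu : IsUnit S.det) (hτ : ∀ y, adjS S (N y) = N y) (ha2 : N 1 * N 1 = 0)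
    {e e' f f' : Fin 4 → F} (h : Hyp S e e' f f') (α α' : F) (hα : α ≠ 0) (hα' : α' ≠ 0)
    (ha : N 1 = α • E S e + α' • E S e') (y : Matrix (Fin 4) (Fin 4) F) (hp : N (N y) = dt S e f) : False := by
  obtain ⟨t1, t2, t3, t4, t5, t6⟩ := h.tab hS
  have two : (2 : F) ≠ 0 := two_ne_zero
  -- values of `N`
  have hae : N 1 *ᵥ e = 0 := by
    rw [ha, Matrix.add_mulVec, Matrix.smul_mulVec, Matrix.smul_mulVec, E_mulVec hS, E_mulVec hS, h.ee, t5]; simp
  have haf : N 1 *ᵥ f = α • e := by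
    rw [ha, Matrix.add_mulVec, Matrix.smul_mulVec, Matrix.smul_mulVec, E_mulVec hS, E_mulVec hS, h.ef, h.e'f]; simp
  have dt0 : ∀ v : Fin 4 → F, dt S 0 v = 0 := by
    intro v
    have := dt_smul (S := S) v 0 (0 : F)
    apply mat_ext
    intro w
    rw [dt_mulVec hS, bf_zero_left]; simp
  have hNp : N (dt S e f) = α • E S e := by
    rw [← hp, N_three_eq N hN ha2 y, hp, jmul_dt hS hu _ _ _ (hτ 1), hae, haf, dt0, dt_smul, dt_self, zero_add,
      smul_comm (2 : F)⁻¹ α, smul_smul (2 : F)⁻¹ 2, inv_mul_cancel₀ two, one_smul]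
    rfl
  have hNg : N (E S e) = 0 := by
    have h1 : N (α • E S e) = 0 := by rw [← hNp, ← hp]; exact N_four N hN ha2 y
    rw [map_smul] at h1
    exact (smul_eq_zero.mp h1).resolve_left hα
  have hNg' : N (E S e') = 0 := by
    have h1 := NN_one N hN ha2
    rw [ha, map_add, map_smul, map_smul, hNg, smul_zero, zero_add] at h1
    exact (smul_eq_zero.mp h1).resolve_left hα'
  have hN1p : N (1 - dt S e f) = α' • E S e' := by
    rw [map_sub, hNp, ha]; abel
  obtain ⟨k1, k2⟩ := idem_key N hN hS hu hτ h (N y) hp α' hα' hN1p (E S f)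
  set b := N (E S f) with hb
  have hbτ : adjS S b = b := hτ _
  have q1 := hN (dt S e f) (E S f)
  have q2 := hN (1 - dt S e f) (E S f)
  rw [hNp, ← hb] at q1
  rw [hN1p, ← hb] at q2
  have pe : dt S e f *ᵥ e = (1 : F) • e := by rw [dt_mulVec hS, t1, h.ee, zero_smul, add_zero]
  have pf : dt S e f *ᵥ f = (1 : F) • f := by rw [dt_mulVec hS, h.ff, h.ef, zero_smul, zero_add]
  have pe' : dt S e f *ᵥ e' = (0 : F) • e' := by rw [dt_mulVec hS, t4, h.ee']; simp
  have pf' : dt S e f *ᵥ f' = (0 : F) • f' := by rw [dt_mulVec hS, h.ff', h.ef']; simp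
  have j1 : jmul F (E S e) (E S f) = (2 : F)⁻¹ • dt S e f := by
    have := jmul_E hS hu e (E S f) (E_adj hS hu f)
    rw [E_mulVec hS, t1, one_smul] at this
    exact this
  have j2 : jmul F (E S e') (E S f) = 0 := by
    have := jmul_E hS hu e' (E S f) (E_adj hS hu f)
    rw [E_mulVec hS, t4, zero_smul] at this
    rw [E, this, show dt S e' 0 = 0 from ?_, smul_zero]
    apply mat_ext
    intro w
    rw [dt_mulVec hS, bf_zero_left]; simp
  have j3 : (2 : F) • jmul F (dt S e f) b - b = P S b e e • E S f + P S b f e • dt S e f + P S b f f • E S e -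
      P S b f' f' • E S e' := by
    have sy := fun u v => P_symm hS hu hbτ u v
    have c3 : ∀ {u v : Fin 4 → F} {c d : F}, dt S e f *ᵥ u = c • u → dt S e f *ᵥ v = d • v →
        P S ((2 : F) • jmul F (dt S e f) b - b) u v = (c + d - 1) * P S b u v := by
      intro u v c d h1 h2
      rw [P_sub, P_smul, P_eig hu (dt_adj hS hu _ _) _ h1 h2]
      field_simp
    apply h.ext hS hu
    · rw [map_sub, map_smul, jmul_adj hu _ _ (dt_adj hS hu _ _) hbτ, hbτ]
    · simp only [map_add, map_sub, map_smul, E_adj hS hu, dt_adj hS hu]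
    · rw [c3 pe pe]
      simp only [P_add, P_sub, P_smul, P_E hS, P_dt hS, t1, t2, t3, t4, t5, t6, h.ee, h.ee', h.e'e', h.ff, h.ff',
        h.f'f', h.ef, h.e'f', h.ef', h.e'f]
      ring
    · rw [c3 pe' pe]
      simp only [P_add, P_sub, P_smul, P_E hS, P_dt hS, t1, t2, t3, t4, t5, t6, h.ee, h.ee', h.e'e', h.ff, h.ff',
        h.f'f', h.ef, h.e'f', h.ef', h.e'f]
      ring
    · rw [c3 pe' pe', k1]
      simp only [P_add, P_sub, P_smul, P_E hS, P_dt hS, t1, t2, t3, t4, t5, t6, h.ee, h.ee', h.e'e', h.ff, h.ff',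
        h.f'f', h.ef, h.e'f', h.ef', h.e'f]
      ring
    · rw [c3 pf pe]
      simp only [P_add, P_sub, P_smul, P_E hS, P_dt hS, t1, t2, t3, t4, t5, t6, h.ee, h.ee', h.e'e', h.ff, h.ff',
        h.f'f', h.ef, h.e'f', h.ef', h.e'f]
      ring
    · rw [c3 pf pe']
      simp only [P_add, P_sub, P_smul, P_E hS, P_dt hS, t1, t2, t3, t4, t5, t6, h.ee, h.ee', h.e'e', h.ff, h.ff',
        h.f'f', h.ef, h.e'f', h.ef', h.e'f]
      ring
    · rw [c3 pf' pe]
      simp only [P_add, P_sub, P_smul, P_E hS, P_dt hS, t1, t2, t3, t4, t5, t6, h.ee, h.ee', h.e'e', h.ff, h.ff',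
        h.f'f', h.ef, h.e'f', h.ef', h.e'f]
      ring
    · rw [c3 pf' pe', k2]
      simp only [P_add, P_sub, P_smul, P_E hS, P_dt hS, t1, t2, t3, t4, t5, t6, h.ee, h.ee', h.e'e', h.ff, h.ff',
        h.f'f', h.ef, h.e'f', h.ef', h.e'f]
      ring
    · rw [c3 pf pf]
      simp only [P_add, P_sub, P_smul, P_E hS, P_dt hS, t1, t2, t3, t4, t5, t6, h.ee, h.ee', h.e'e', h.ff, h.ff',
        h.f'f', h.ef, h.e'f', h.ef', h.e'f]
      ring
    · rw [c3 pf' pf]
      simp only [P_add, P_sub, P_smul, P_E hS, P_dt hS, t1, t2, t3, t4, t5, t6, h.ee, h.ee', h.e'e', h.ff, h.ff',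
        h.f'f', h.ef, h.e'f', h.ef', h.e'f]
      ring
    · rw [c3 pf' pf']
      simp only [P_add, P_sub, P_smul, P_E hS, P_dt hS, t1, t2, t3, t4, t5, t6, h.ee, h.ee', h.e'e', h.ff, h.ff',
        h.f'f', h.ef, h.e'f', h.ef', h.e'f]
      ring
  have q3 : jmul F (α • E S e) b - jmul F (α' • E S e') b = ((2 : F)⁻¹ * α ^ 2 + P S b f e * α) • E S e +
      P S b e e • b := by
    have e1 : jmul F (α • E S e) (E S f) + jmul F (dt S e f) b - (jmul F (α' • E S e') (E S f) +
        jmul F (1 - dt S e f) b) = ((2 : F)⁻¹ * α) • dt S e f + ((2 : F) • jmul F (dt S e f) b - b) := by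
      have e2 : jmul F (1 - dt S e f) b = b - jmul F (dt S e f) b := by
        rw [jmul_comm', jmul_sub, jmul_one, jmul_comm']
      rw [e2, smul_jmul, smul_jmul, j1, j2, smul_zero, zero_add, smul_smul, two_smul, mul_comm α]
      abel
    rw [q1, q2, ← map_sub, e1, j3]
    simp only [map_add, map_sub, map_smul, hNp, hNg, hNg', ← hb, smul_smul, smul_zero]
    module
  have r1 := congrArg (fun X => P S X e e) q3
  have r2 := congrArg (fun X => P S X f f) q3
  simp only [P_sub, P_add, P_smul, smul_jmul, P_act hu (E_adj hS hu _), E_mulVec hS, P_sl, P_sr, P_E hS, h.ee, h.ef,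
    t1, t5, h.e'f, t4, h.e'e'] at r1 r2
  have r3 : P S b e e = 0 := by
    have : P S b e e * P S b e e = 0 := by linear_combination -r1
    exact mul_self_eq_zero.mp this
  rw [r3, P_symm hS hu hbτ e f] at r2
  have r4 : α ^ 2 = 0 := by
    have h5 : (2 : F) * (2 : F)⁻¹ = 1 := mul_inv_cancel₀ two
    linear_combination (-2 : F) * r2 + (2 * α * P S b f e - α ^ 2) * h5
  exact hα (pow_eq_zero_iff (two_ne_zero) |>.mp r4)

end idem

end JRB3
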