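import Mathlib
import Pool.Agent.H241R2.RBW.Four3

/-!
# The nilpotent case
-/

namespace JRB3

open JRB JRB2 Matrix Module

set_option linter.unusedSectionVars false
set_option linter.unusedSimpArgs false

section nilp

variable {F : Type*} [Field F] [CharZero F] {S : Matrix (Fin 4) (Fin 4) F}
variable (N : Matrix (Fin 4) (Fin 4) F →ₗ[F] Matrix (Fin 4) (Fin 4) F) (hN : IsRB F (jmul F) N)

theorem dt_zl (hS : Sᵀ = S) (v : Fin 4 → F) : dt S 0 v = 0 := by
  apply mat_ext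
  intro w
  rw [dt_mulVec hS, bf_zero_left]; simp

theorem dt_zr (hS : Sᵀ = S) (v : Fin 4 → F) : dt S v 0 = 0 := by
  apply mat_ext
  intro w
  rw [dt_mulVec hS, bf_zero_left]; simp

theorem P_z (Y : Matrix (Fin 4) (Fin 4) F) (u : Fin 4 → F) : P S Y u 0 = 0 := by
  unfold P; rw [Matrix.mulVec_zero]; exact bf_zr u

theorem P_zl (Y : Matrix (Fin 4) (Fin 4) F) (u : Fin 4 → F) : P S Y 0 u = 0 := by
  unfold P; rw [bf_zero_left]

/-- `1` in a hyperbolic basis -/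
theorem Hyp.one (hS : Sᵀ = S) {e e' f f' : Fin 4 → F} (h : Hyp S e e' f f') :
    (1 : Matrix (Fin 4) (Fin 4) F) = dt S e f + dt S e' f' := by
  apply mat_ext
  intro w
  rw [Matrix.one_mulVec, Matrix.add_mulVec, dt_mulVec hS, dt_mulVec hS]
  conv_lhs => rw [h.dec hS w]
  module

/-- the action of `a = e · e'` -/
theorem U_eq (hS : Sᵀ = S) (hu : IsUnit S.det) {e e' f f' : Fin 4 → F} (h : Hyp S e e' f f')
    {X : Matrix (Fin 4) (Fin 4) F} (hX : adjS S X = X) :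
    jmul F (dt S e e') (jmul F (dt S e e') X) = (2 : F)⁻¹ • (P S X e' e' • E S e + P S X e' e • dt S e e' +
      P S X e e • E S e') := by
  obtain ⟨t1, t2, t3, t4, t5, t6⟩ := h.tab hS
  have two : (2 : F) ≠ 0 := two_ne_zero
  have ae : dt S e e' *ᵥ e = 0 := by rw [dt_mulVec hS, t5, h.ee]; simp
  have ae' : dt S e e' *ᵥ e' = 0 := by rw [dt_mulVec hS, h.e'e', h.ee']; simp
  have af : dt S e e' *ᵥ f = e' := by rw [dt_mulVec hS, h.e'f, h.ef]; simp
  have af' : dt S e e' *ᵥ f' = e := by rw [dt_mulVec hS, h.e'f', h.ef']; simp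
  have sy := P_symm hS hu hX e e'
  have hd := dt_adj hS hu e e'
  apply h.ext hS hu
  · rw [jmul_adj hu _ _ hd (jmul_adj hu _ _ hd hX)]
  · simp only [map_add, map_smul, E_adj hS hu, dt_adj hS hu]
  all_goals
    simp only [P_act hu hd, ae, ae', af, af', Matrix.mulVec_zero, P_z, P_zl, P_add, P_smul, P_E hS, P_dt hS, t1, t2, t3, t4, t5, t6,
      h.ee, h.ee', h.e'e', h.ff, h.ff', h.f'f', h.ef, h.e'f', h.ef', h.e'f, sy]
    try field_simp
    try ring

include hN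

theorem N_U (ha2 : N 1 * N 1 = 0) (z : Matrix (Fin 4) (Fin 4) F) :
    jmul F (N 1) (jmul F (N 1) (N z)) = N (jmul F (N 1) (jmul F (N 1) z)) := by
  have h1 := N_one_rel N hN z
  have h2 := N_one_rel N hN (jmul F (N 1) z)
  have h3 := N_one_rel N hN (N z)
  have h4 := congrArg N h1
  rw [N_aN N hN ha2, map_add] at h4
  rw [N_aN N hN ha2, zero_add] at h3
  rw [h1, jmul_add, h2, h3, add_assoc, ← h4, add_zero]

end nilp

/-- the setting of the nilpotent case -/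
structure Nil {F : Type*} [Field F] [CharZero F] (S : Matrix (Fin 4) (Fin 4) F)
    (N : Matrix (Fin 4) (Fin 4) F →ₗ[F] Matrix (Fin 4) (Fin 4) F) (e e' f f' : Fin 4 → F)
    (y0 : Matrix (Fin 4) (Fin 4) F) (l1 l2 l3 : F) : Prop where
  hN : IsRB F (jmul F) N
  hS : Sᵀ = S
  hu : IsUnit S.det
  hτ : ∀ y, adjS S (N y) = N y
  ha2 : N 1 * N 1 = 0
  h : Hyp S e e' f f'
  ha : N 1 = dt S e e'
  hy0 : adjS S y0 = y0
  hc : N (N y0) = dt S e f' + l1 • E S e + l2 • dt S e e' + l3 • E S e'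

section nilp2

variable {F : Type*} [Field F] [CharZero F] {S : Matrix (Fin 4) (Fin 4) F}
variable {N : Matrix (Fin 4) (Fin 4) F →ₗ[F] Matrix (Fin 4) (Fin 4) F} {e e' f f' : Fin 4 → F}
variable {y0 : Matrix (Fin 4) (Fin 4) F} {l1 l2 l3 : F} (H : Nil S N e e' f f' y0 l1 l2 l3)

include H

theorem Nil.ce : N (N y0) *ᵥ e = 0 := by
  obtain ⟨t1, t2, t3, t4, t5, t6⟩ := H.h.tab H.hS
  simp only [H.hc, Matrix.add_mulVec, Matrix.smul_mulVec, E_mulVec H.hS, dt_mulVec H.hS, t1, t2, t3, t4, t5, t6,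
    H.h.ee, H.h.ee', H.h.e'e', H.h.ef, H.h.e'f', H.h.ef', H.h.e'f, zero_smul, smul_zero, add_zero]

theorem Nil.ce' : N (N y0) *ᵥ e' = e := by
  obtain ⟨t1, t2, t3, t4, t5, t6⟩ := H.h.tab H.hS
  simp only [H.hc, Matrix.add_mulVec, Matrix.smul_mulVec, E_mulVec H.hS, dt_mulVec H.hS, t1, t2, t3, t4, t5, t6,
    H.h.ee, H.h.ee', H.h.e'e', H.h.ef, H.h.e'f', H.h.ef', H.h.e'f, zero_smul, smul_zero, add_zero, one_smul]

theorem Nil.cf : N (N y0) *ᵥ f = f' + l1 • e + l2 • e' := by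
  obtain ⟨t1, t2, t3, t4, t5, t6⟩ := H.h.tab H.hS
  simp only [H.hc, Matrix.add_mulVec, Matrix.smul_mulVec, E_mulVec H.hS, dt_mulVec H.hS, t1, t2, t3, t4, t5, t6,
    H.h.ee, H.h.ee', H.h.e'e', H.h.ef, H.h.e'f', H.h.ef', H.h.e'f, zero_smul, smul_zero, add_zero, one_smul,
    zero_add]

theorem Nil.cf' : N (N y0) *ᵥ f' = l2 • e + l3 • e' := by
  obtain ⟨t1, t2, t3, t4, t5, t6⟩ := H.h.tab H.hS
  simp only [H.hc, Matrix.add_mulVec, Matrix.smul_mulVec, E_mulVec H.hS, dt_mulVec H.hS, t1, t2, t3, t4, t5, t6,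
    H.h.ee, H.h.ee', H.h.e'e', H.h.ef, H.h.e'f', H.h.ef', H.h.e'f, H.h.f'f', zero_smul, smul_zero, add_zero, one_smul,
    zero_add]

theorem Nil.Nc : N (N (N y0)) = E S e := by
  have two : (2 : F) ≠ 0 := two_ne_zero
  rw [N_three_eq N H.hN H.ha2 y0, H.ha, jmul_comm', jmul_dt H.hS H.hu _ _ _ (H.hτ _), H.ce, H.ce', dt_zl H.hS,
    dt_self, zero_add, smul_smul, inv_mul_cancel₀ two, one_smul]
  rfl

theorem Nil.Ng : N (E S e) = 0 := by
  rw [← H.Nc]; exact N_four N H.hN H.ha2 y0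

theorem Nil.Na : N (dt S e e') = 0 := by
  rw [← H.ha]; exact NN_one N H.hN H.ha2

theorem Nil.U (z : Matrix (Fin 4) (Fin 4) F) (hz : adjS S z = z) :
    P S (N z) e' e' • E S e + P S (N z) e' e • dt S e e' + P S (N z) e e • E S e' = P S z e e • N (E S e') := by
  have two : (2 : F) ≠ 0 := two_ne_zero
  have h1 := N_U N H.hN H.ha2 z
  rw [H.ha, U_eq H.hS H.hu H.h (H.hτ z), U_eq H.hS H.hu H.h hz, map_smul, map_add, map_add, map_smul, map_smul,
    map_smul, H.Ng, H.Na, smul_zero, smul_zero, zero_add, zero_add] at h1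
  exact smul_right_injective _ (inv_ne_zero two) h1

theorem Nil.U0 (x : Matrix (Fin 4) (Fin 4) F) : P S (N x) e e • N (E S e') = 0 := by
  have two : (2 : F) ≠ 0 := two_ne_zero
  have h1 : N (jmul F (N 1) (jmul F (N 1) (N x))) = 0 := ker_mod N H.hN 1 _ (N_aN N H.hN H.ha2 x)
  rw [H.ha, U_eq H.hS H.hu H.h (H.hτ x), map_smul, map_add, map_add, map_smul, map_smul,
    map_smul, H.Ng, H.Na, smul_zero, smul_zero, zero_add, zero_add] at h1
  exact (smul_eq_zero.mp h1).resolve_left (inv_ne_zero two)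

theorem Nil.PEf : P S (E S f) e e = 1 := by
  obtain ⟨t1, t2, t3, t4, t5, t6⟩ := H.h.tab H.hS
  rw [P_E H.hS, H.h.ef, t1, one_mul]

theorem Nil.mu3 : P S (N (E S f)) e e = 0 := by
  obtain ⟨t1, t2, t3, t4, t5, t6⟩ := H.h.tab H.hS
  have h1 := H.U (E S f) (E_adj H.hS H.hu f)
  have h2 := H.U0 (E S f)
  rw [H.PEf, one_smul] at h1
  rw [← h1] at h2
  have h3 := congrArg (fun X => P S X f' f') h2
  simp only [P_add, P_smul, P_zero, P_E H.hS, P_dt H.hS, t1, t2, t3, t4, t5, t6, H.h.ee, H.h.ee', H.h.e'e', H.h.ef,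
    H.h.e'f', H.h.ef', H.h.e'f, H.h.f'f'] at h3
  have h4 : P S (N (E S f)) e e * P S (N (E S f)) e e = 0 := by linear_combination h3
  exact mul_self_eq_zero.mp h4

theorem Nil.U' (z : Matrix (Fin 4) (Fin 4) F) (hz : adjS S z = z) :
    P S (N z) e' e' = P S z e e * P S (N (E S f)) e' e' ∧ P S (N z) e' e = P S z e e * P S (N (E S f)) e' e ∧
      P S (N z) e e = 0 := by
  obtain ⟨t1, t2, t3, t4, t5, t6⟩ := H.h.tab H.hS
  have h1 := H.U (E S f) (E_adj H.hS H.hu f)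
  rw [H.PEf, one_smul, H.mu3] at h1
  have h2 := H.U z hz
  rw [← h1] at h2
  have g1 := congrArg (fun X => P S X f f) h2
  have g2 := congrArg (fun X => P S X f' f) h2
  have g3 := congrArg (fun X => P S X f' f') h2
  simp only [P_add, P_smul, P_zero, P_E H.hS, P_dt H.hS, t1, t2, t3, t4, t5, t6, H.h.ee, H.h.ee', H.h.e'e', H.h.ef,
    H.h.e'f', H.h.ef', H.h.e'f, H.h.f'f'] at g1 g2 g3
  exact ⟨by linear_combination g1, by linear_combination g2, by linear_combination g3⟩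

theorem Nil.cadj : adjS S (N (N y0)) = N (N y0) := H.hτ _

theorem Nil.mu2 : P S (N (E S f)) e' e = 0 := by
  have two : (2 : F) ≠ 0 := two_ne_zero
  set b := N (E S f) with hb
  set z := jmul F (N (N y0)) (E S f) + jmul F (N y0) b with hz
  have hzadj : adjS S z = z := by
    rw [hz, map_add, jmul_adj H.hu _ _ (H.hτ _) (E_adj H.hS H.hu f), jmul_adj H.hu _ _ (H.hτ _) (H.hτ _)]
  have hNz : N z = jmul F (N (N y0)) b := (H.hN (N y0) (E S f)).symm
  obtain ⟨g1, g2, -⟩ := H.U' z hzadj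
  rw [hNz, P_act H.hu (H.hτ _), H.ce', ← hb] at g1
  rw [hNz, P_act H.hu (H.hτ _), H.ce', H.ce, P_z, ← hb, H.mu3] at g2
  rw [P_symm H.hS H.hu (H.hτ _) e e'] at g1
  have h5 : (2 : F) * (2 : F)⁻¹ = 1 := mul_inv_cancel₀ two
  have h4 : P S b e' e * P S b e' e = 0 := by
    linear_combination P S b e' e * g1 - P S b e' e' * g2 - P S b e' e ^ 2 * h5
  exact mul_self_eq_zero.mp h4

theorem Nil.Ng' : N (E S e') = P S (N (E S f)) e' e' • E S e := by
  have h1 := H.U (E S f) (E_adj H.hS H.hu f)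
  rw [H.PEf, one_smul, H.mu3, H.mu2, zero_smul, zero_smul, add_zero, add_zero] at h1
  exact h1.symm

theorem Nil.U'' (z : Matrix (Fin 4) (Fin 4) F) (hz : adjS S z = z) :
    P S (N z) e' e' = P S z e e * P S (N (E S f)) e' e' ∧ P S (N z) e' e = 0 ∧
      P S (N z) e e = 0 := by
  obtain ⟨h1, h2, h3⟩ := H.U' z hz
  rw [H.mu2, mul_zero] at h2
  exact ⟨h1, h2, h3⟩

theorem Nil.Nef' : N (dt S e f') = (1 - l3 * P S (N (E S f)) e' e') • E S e := by
  have h1 := H.Nc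
  rw [H.hc, map_add, map_add, map_add, map_smul, map_smul, map_smul, H.Ng, H.Na, H.Ng', smul_zero, smul_zero,
    add_zero, add_zero] at h1
  rw [sub_smul, one_smul, mul_smul]
  exact eq_sub_of_add_eq h1

end nilp2

end JRB3
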