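import Mathlib
import Pool.Agent.H241R2.RBW.Four4

/-!
# The nilpotent case: contradiction
-/

namespace JRB3

open JRB JRB2 Matrix Module

set_option linter.unusedSectionVars false
set_option linter.unusedSimpArgs false

section nilp2

variable {F : Type*} [Field F] [CharZero F] {S : Matrix (Fin 4) (Fin 4) F}
variable {N : Matrix (Fin 4) (Fin 4) F →ₗ[F] Matrix (Fin 4) (Fin 4) F} {e e' f f' : Fin 4 → F}
variable {y0 : Matrix (Fin 4) (Fin 4) F} {l1 l2 l3 : F} (H : Nil S N e e' f f' y0 l1 l2 l3)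

include H

theorem Nil.Ne'f' : N (dt S e' f') = dt S e e' - N (dt S e f) := by
  have h1 := H.ha
  rw [H.h.one H.hS, map_add] at h1
  exact eq_sub_of_add_eq' h1

theorem Nil.Ncx (x : Matrix (Fin 4) (Fin 4) F) (hx : adjS S x = x) (h1 : P S x e e = 0) (h2 : P S x e' e = 0) :
    N (jmul F (N (N y0)) x) = ((l2 * P S x f' e + l3 * P S x f' e') * P S (N (E S f)) e' e' +
      2⁻¹ * (P S x f' e' + l2 * P S x e' e' + P S x f e) * (1 - l3 * P S (N (E S f)) e' e')) • E S e +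
      (2⁻¹ * P S x f' e) • N (dt S e f) +
      (2⁻¹ * (l3 * P S x e' e' + P S x f' e)) • (dt S e e' - N (dt S e f)) := by
  have two : (2 : F) ≠ 0 := two_ne_zero
  have sy := fun u v => P_symm H.hS H.hu hx u v
  have h2' : P S x e e' = 0 := by rw [sy, h2]
  have hadj := jmul_adj H.hu _ _ (H.hτ (N y0)) hx
  have k1 : P S (jmul F (N (N y0)) x) f' f' = l2 * P S x f' e + l3 * P S x f' e' := by
    rw [P_act H.hu (H.hτ _), H.cf', P_al, P_ar, P_sl, P_sl, P_sr, P_sr, sy e f', sy e' f']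
    field_simp; ring
  have k2 : P S (jmul F (N (N y0)) x) f e = 2⁻¹ * P S x f' e := by
    rw [P_act H.hu (H.hτ _), H.cf, H.ce, P_al, P_al, P_sl, P_sl, P_z, h1, h2]; ring
  have k3 : P S (jmul F (N (N y0)) x) f e' = 2⁻¹ * (P S x f' e' + l2 * P S x e' e' + P S x f e) := by
    rw [P_act H.hu (H.hτ _), H.cf, H.ce', P_al, P_al, P_sl, P_sl, h2']; ring
  have k4 : P S (jmul F (N (N y0)) x) f' e = 0 := by
    rw [P_act H.hu (H.hτ _), H.cf', H.ce, P_al, P_sl, P_sl, P_z, h1, h2]; ring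
  have k5 : P S (jmul F (N (N y0)) x) f' e' = 2⁻¹ * (l3 * P S x e' e' + P S x f' e) := by
    rw [P_act H.hu (H.hτ _), H.cf', H.ce', P_al, P_sl, P_sl, h2']; ring
  have k6 : P S (jmul F (N (N y0)) x) e e = 0 := by
    rw [P_act H.hu (H.hτ _), H.ce, P_z, P_zl]; ring
  have k7 : P S (jmul F (N (N y0)) x) e' e = 0 := by
    rw [P_act H.hu (H.hτ _), H.ce, H.ce', P_z, h1]; ring
  have k8 : P S (jmul F (N (N y0)) x) e' e' = 0 := by
    rw [P_act H.hu (H.hτ _), H.ce', h2, h2']; ring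
  rw [H.h.expand H.hS H.hu hadj, k1, k2, k3, k4, k5, k6, k7, k8]
  simp only [map_add, map_smul, H.Ng, H.Na, H.Ng', H.Nef', H.Ne'f', smul_smul, smul_zero, zero_smul, zero_add, add_zero]
  module

/-- the value of an element of the image at `e` -/
theorem Nil.xe (x : Matrix (Fin 4) (Fin 4) F) (hx : adjS S x = x) (h1 : P S x e e = 0) (h2 : P S x e' e = 0) :
    jmul F (E S e) x = P S x f e • E S e + (2⁻¹ * P S x f' e) • dt S e e' := by
  have two : (2 : F) ≠ 0 := two_ne_zero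
  have h3 := jmul_E H.hS H.hu e x hx
  have h4 : x *ᵥ e = P S x f e • e + P S x f' e • e' := by
    have := H.h.dec H.hS (x *ᵥ e)
    unfold P at h1 h2 ⊢
    rw [h1, h2, zero_smul, zero_smul, add_zero, add_zero] at this
    exact this
  rw [h4, dt_add, dt_smul, dt_smul, dt_self, smul_add, smul_smul, smul_smul, smul_smul] at h3
  rw [E, h3]
  congr 1
  congr 1
  field_simp

theorem Nil.D1 : ((2 : F)⁻¹ * (1 - l3 * P S (N (E S f)) e' e')) • N (dt S e f) +
    ((2 : F)⁻¹ * (l3 * P S (N (E S f)) e' e')) • dt S e e' +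
    (((l2 * P S (N (E S f)) f' e + l3 * P S (N (E S f)) f' e') * P S (N (E S f)) e' e' +
      2⁻¹ * (P S (N (E S f)) f' e' + l2 * P S (N (E S f)) e' e' + P S (N (E S f)) f e) *
      (1 - l3 * P S (N (E S f)) e' e')) - P S (N (E S f)) f e) • E S e = 0 := by
  obtain ⟨t1, t2, t3, t4, t5, t6⟩ := H.h.tab H.hS
  have two : (2 : F) ≠ 0 := two_ne_zero
  have h1 := H.hN (N (N y0)) (E S f)
  have j1 : jmul F (E S e) (E S f) = (2 : F)⁻¹ • dt S e f := by
    have := jmul_E H.hS H.hu e (E S f) (E_adj H.hS H.hu f)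
    rw [E_mulVec H.hS, t1, one_smul] at this
    exact this
  rw [H.Nc, map_add, j1, map_smul, H.Ncx _ (H.hτ _) H.mu3 H.mu2, H.xe _ (H.hτ _) H.mu3 H.mu2] at h1
  rw [← sub_eq_zero] at h1
  rw [← neg_eq_zero, ← h1]
  module

theorem Nil.Pdff : P S (dt S f f') e e = 0 := by
  obtain ⟨t1, t2, t3, t4, t5, t6⟩ := H.h.tab H.hS
  rw [P_dt H.hS, t3, H.h.ef']; ring

theorem Nil.D2 : P S (N (dt S f f')) f e = 2⁻¹ * (1 - l3 * P S (N (E S f)) e' e') +
    ((l2 * P S (N (dt S f f')) f' e + l3 * P S (N (dt S f f')) f' e') * P S (N (E S f)) e' e' +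
      2⁻¹ * (P S (N (dt S f f')) f' e' + P S (N (dt S f f')) f e) *
      (1 - l3 * P S (N (E S f)) e' e')) := by
  obtain ⟨t1, t2, t3, t4, t5, t6⟩ := H.h.tab H.hS
  have two : (2 : F) ≠ 0 := two_ne_zero
  obtain ⟨u1, u2, u3⟩ := H.U'' (dt S f f') (dt_adj H.hS H.hu _ _)
  rw [H.Pdff, zero_mul] at u1
  have h1 := H.hN (N (N y0)) (dt S f f')
  have j1 : jmul F (E S e) (dt S f f') = (2 : F)⁻¹ • dt S e f' := by
    have := jmul_E H.hS H.hu e (dt S f f') (dt_adj H.hS H.hu f f')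
    rw [dt_mulVec H.hS, t1, t3, one_smul, zero_smul, zero_add] at this
    exact this
  rw [H.Nc, map_add, j1, map_smul, H.Ncx _ (H.hτ _) u3 u2, H.xe _ (H.hτ _) u3 u2, u1, H.Nef'] at h1
  have h2 := congrArg (fun X => P S X f f) h1
  simp only [P_add, P_sub, P_smul, P_zero, P_E H.hS, P_dt H.hS, t1, t2, t3, t4, t5, t6, H.h.ee, H.h.ee', H.h.e'e',
    H.h.ef, H.h.e'f', H.h.ef', H.h.e'f, H.h.f'f', H.h.ff, H.h.ff'] at h2
  linear_combination h2

/-- products of elements of the image -/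
theorem Nil.prod (z w : Matrix (Fin 4) (Fin 4) F) (hz : adjS S z = z) (hw : adjS S w = w) :
    P S (jmul F (N z) (N w)) e' e = 0 ∧
    P S (jmul F (N z) (N w)) e' e' = (P S (jmul F (N z) w) e e + P S (jmul F z (N w)) e e) *
      P S (N (E S f)) e' e' := by
  have hadj : adjS S (jmul F (N z) w + jmul F z (N w)) = jmul F (N z) w + jmul F z (N w) := by
    rw [map_add, jmul_adj H.hu _ _ (H.hτ _) hw, jmul_adj H.hu _ _ hz (H.hτ _)]
  obtain ⟨u1, u2, u3⟩ := H.U'' _ hadj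
  rw [← H.hN z w] at u1 u2
  rw [P_add] at u1
  exact ⟨u2, u1⟩

theorem Nil.case_ne (hμ : P S (N (E S f)) e' e' ≠ 0) : False := by
  obtain ⟨t1, t2, t3, t4, t5, t6⟩ := H.h.tab H.hS
  have two : (2 : F) ≠ 0 := two_ne_zero
  have hEf := E_adj H.hS H.hu f
  have hdff := dt_adj H.hS H.hu f f'
  obtain ⟨v1, v2, v3⟩ := H.U'' (dt S f f') hdff
  rw [H.Pdff, zero_mul] at v1
  obtain ⟨p1, p2⟩ := H.prod (E S f) (E S f) hEf hEf
  obtain ⟨q1, q2⟩ := H.prod (E S f) (dt S f f') hEf hdff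
  have sy := fun u v => P_symm H.hS H.hu (H.hτ (E S f)) u v
  have sy1 := fun u v => P_symm H.hS H.hu (H.hτ (dt S f f')) u v
  set b := N (E S f) with hb
  set b1 := N (dt S f f') with hb1
  have m3 : P S b e e = 0 := H.mu3
  have m2 : P S b e' e = 0 := H.mu2
  have m2' : P S b e e' = 0 := by rw [sy, m2]
  have v2' : P S b1 e e' = 0 := by rw [sy1, v2]
  have r0 : P S b f' e = 0 := by
    rw [P_jmul H.hS H.hu H.h (H.hτ _) (H.hτ _), ← hb, m3, m2, m2'] at p1
    have : P S b e' e' * P S b f' e = 0 := by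
      have h5 : (2 : F) * (2 : F)⁻¹ = 1 := mul_inv_cancel₀ two
      linear_combination p1 - P S b e' e' * P S b f' e * h5
    exact (mul_eq_zero.mp this).resolve_left hμ
  have r1 : P S b1 f' e = 0 := by
    rw [P_jmul H.hS H.hu H.h (H.hτ _) (H.hτ _), ← hb, ← hb1, m3, m2, m2', r0, v3, v2, v2', v1] at q1
    have : P S b e' e' * P S b1 f' e = 0 := by
      have h5 : (2 : F) * (2 : F)⁻¹ = 1 := mul_inv_cancel₀ two
      linear_combination 2 * q1 - P S b e' e' * P S b1 f' e * h5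
    exact (mul_eq_zero.mp this).resolve_left hμ
  have dffe : dt S f f' *ᵥ e = f' := by rw [dt_mulVec H.hS, t3, t1]; simp
  have Efe : E S f *ᵥ e = f := by rw [E_mulVec H.hS, t1, one_smul]
  have s1 : P S b1 f' e' = P S b1 f e := by
    rw [P_jmul H.hS H.hu H.h (H.hτ _) (H.hτ _), ← hb, ← hb1, m2', v2', v1, jmul_comm' b (dt S f f'),
      P_act H.hu hdff, P_act H.hu hEf, dffe, Efe, sy e f', r0, sy1 e f] at q2
    have : P S b e' e' * (P S b1 f' e' - P S b1 f e) = 0 := by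
      have h5 : (2 : F) * (2 : F)⁻¹ = 1 := mul_inv_cancel₀ two
      linear_combination q2 - (P S b e' e' * P S b1 f' e' - P S b e' e' * P S b1 f e) * h5
    exact sub_eq_zero.mp ((mul_eq_zero.mp this).resolve_left hμ)
  have d2 := H.D2
  rw [← hb, ← hb1, s1, r1] at d2
  have h5 : (2 : F) * (2 : F)⁻¹ = 1 := mul_inv_cancel₀ two
  have nu : l3 * P S b e' e' = 1 := by
    linear_combination (2 : F) * d2 - (1 - l3 * P S b e' e') * (1 + 2 * P S b1 f e) * h5
  have d1 := H.D1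
  rw [← hb, nu] at d1
  have d3 := congrArg (fun X => P S X f' f) d1
  simp only [P_add, P_sub, P_smul, P_zero, P_E H.hS, P_dt H.hS, t1, t2, t3, t4, t5, t6, H.h.ee, H.h.ee', H.h.e'e',
    H.h.ef, H.h.e'f', H.h.ef', H.h.e'f, H.h.f'f', H.h.ff, H.h.ff'] at d3
  have : (1 : F) = 0 := by linear_combination (2 : F) * d3 - h5
  exact one_ne_zero this

end nilp2

end JRB3
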