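import Mathlib
import Pool.Agent.H241R2.RBW.Four5

/-!
# The nilpotent case: contradiction, second part
-/

namespace JRB3

open JRB JRB2 Matrix Module

set_option linter.unusedSectionVars false
set_option linter.unusedSimpArgs false

section nilp2

variable {F : Type*} [Field F] [CharZero F] {S : Matrix (Fin 4) (Fin 4) F}
variable {N : Matrix (Fin 4) (Fin 4) F →ₗ[F] Matrix (Fin 4) (Fin 4) F} {e e' f f' : Fin 4 → F}
variable {y0 : Matrix (Fin 4) (Fin 4) F} {l1 l2 l3 : F} (H : Nil S N e e' f f' y0 l1 l2 l3)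

include H

theorem Nil.detz (hμ : P S (N (E S f)) e' e' = 0) (z : Matrix (Fin 4) (Fin 4) F) (hz : adjS S z = z) :
    P S (N z) f e * P S (N z) f' e' - P S (N z) f' e * P S (N z) f e' = 0 := by
  obtain ⟨v1, v2, v3⟩ := H.U'' z hz
  rw [hμ, mul_zero] at v1
  have sy := fun u v => P_symm H.hS H.hu (H.hτ z) u v
  obtain ⟨v, hv, hv0⟩ := sing N H.hN (by norm_num) z
  have g : ∀ u, P S (N z) f u * bf S e v + P S (N z) f' u * bf S e' v + P S (N z) e u * bf S f v +
      P S (N z) e' u * bf S f' v = 0 := by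
    intro u
    have h1 := H.h.bf_dec H.hS (N z *ᵥ u) v
    rw [bf_adj H.hu (H.hτ z), hv0, bf_zr] at h1
    exact h1.symm
  by_cases hne : bf S e v ≠ 0 ∨ bf S e' v ≠ 0
  · have g1 := g e
    have g2 := g e'
    rw [v2, v3] at g1
    rw [v1, sy e e', v2] at g2
    have := det2 hne (A := P S (N z) f e) (B := P S (N z) f' e) (C := P S (N z) f e') (D := P S (N z) f' e')
      (by linear_combination g1) (by linear_combination g2)
    exact this
  · push Not at hne
    obtain ⟨n1, n2⟩ := hne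
    have hne' : bf S f v ≠ 0 ∨ bf S f' v ≠ 0 := by
      by_contra hcon
      push Not at hcon
      exact hv (H.h.zero_of H.hS n1 n2 hcon.1 hcon.2)
    have g1 := g f
    have g2 := g f'
    rw [n1, n2, sy e f, sy e' f] at g1
    rw [n1, n2, sy e f', sy e' f'] at g2
    have := det2 hne' (A := P S (N z) f e) (B := P S (N z) f e') (C := P S (N z) f' e) (D := P S (N z) f' e')
      (by linear_combination g1) (by linear_combination g2)
    linear_combination this

theorem Nil.r0 (hμ : P S (N (E S f)) e' e' = 0) (z : Matrix (Fin 4) (Fin 4) F) (hz : adjS S z = z) :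
    P S (N z) f' e = 0 := by
  obtain ⟨t1, t2, t3, t4, t5, t6⟩ := H.h.tab H.hS
  have h1 := H.detz hμ z hz
  have h2 := H.detz hμ (z + N y0) (by rw [map_add, hz, H.hτ])
  have c1 : P S (N (N y0)) f e = 0 := by unfold P; rw [H.ce, bf_zr]
  have c2 : P S (N (N y0)) f' e = 0 := by unfold P; rw [H.ce, bf_zr]
  have c3 : P S (N (N y0)) f e' = 1 := by unfold P; rw [H.ce', t1]
  have c4 : P S (N (N y0)) f' e' = 0 := by unfold P; rw [H.ce', t3]
  rw [map_add, P_add, P_add, P_add, P_add, c1, c2, c3, c4] at h2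
  linear_combination h1 - h2

theorem Nil.case_zero (hμ : P S (N (E S f)) e' e' = 0) : False := by
  obtain ⟨t1, t2, t3, t4, t5, t6⟩ := H.h.tab H.hS
  have two : (2 : F) ≠ 0 := two_ne_zero
  have h5 : (2 : F) * (2 : F)⁻¹ = 1 := mul_inv_cancel₀ two
  have d1 := H.D1
  rw [hμ, H.r0 hμ _ (E_adj H.hS H.hu f)] at d1
  obtain ⟨θ, hT⟩ : ∃ θ : F, N (dt S e f) = θ • E S e := by
    refine ⟨P S (N (E S f)) f e - P S (N (E S f)) f' e', ?_⟩
    have d2 : N (dt S e f) - (P S (N (E S f)) f e - P S (N (E S f)) f' e') • E S e = (2 : F) •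
        (((2 : F)⁻¹ * (1 - l3 * 0)) • N (dt S e f) + ((2 : F)⁻¹ * (l3 * 0)) • dt S e e' +
        (((l2 * 0 + l3 * P S (N (E S f)) f' e') * 0 +
        2⁻¹ * (P S (N (E S f)) f' e' + l2 * 0 + P S (N (E S f)) f e) *
        (1 - l3 * 0)) - P S (N (E S f)) f e) • E S e) := by
      simp only [smul_add, smul_smul]
      have q : (2 : F) * ((l2 * 0 + l3 * P S (N (E S f)) f' e') * 0 +
        2⁻¹ * (P S (N (E S f)) f' e' + l2 * 0 + P S (N (E S f)) f e) *
        (1 - l3 * 0) - P S (N (E S f)) f e) = -(P S (N (E S f)) f e - P S (N (E S f)) f' e') := by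
        linear_combination (P S (N (E S f)) f e + P S (N (E S f)) f' e') * h5
      have q2 : (2 : F) * (2⁻¹ * (1 - l3 * 0)) = 1 := by linear_combination h5
      rw [q, q2]
      module
    rw [d1, smul_zero, sub_eq_zero] at d2
    exact d2
  set x := N y0 with hx
  have hxadj : adjS S x = x := H.hτ y0
  obtain ⟨v1, v2, v3⟩ := H.U'' y0 H.hy0
  rw [hμ, mul_zero] at v1
  have v4 := H.r0 hμ y0 H.hy0
  rw [← hx] at v1 v2 v3 v4
  have hc := H.hc
  rw [← hx] at hc
  have h1 := congrArg (fun X => P S X f e') hc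
  rw [H.h.expand H.hS H.hu hxadj, v1, v2, v3, v4] at h1
  simp only [map_add, map_smul, map_zero, H.Ng, H.Na, H.Ng', H.Nef', H.Ne'f', hT, hμ, smul_zero, zero_smul, P_add, P_sub,
    P_smul, P_zero, P_E H.hS, P_dt H.hS, t1, t2, t3, t4, t5, t6, H.h.ee, H.h.ee', H.h.e'e',
    H.h.ef, H.h.e'f', H.h.ef', H.h.e'f, H.h.f'f', H.h.ff, H.h.ff'] at h1
  have : (1 : F) = 0 := by linear_combination -h1
  exact one_ne_zero this

theorem Nil.false : False := by
  by_cases hμ : P S (N (E S f)) e' e' = 0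
  · exact H.case_zero hμ
  · exact H.case_ne hμ

end nilp2

end JRB3
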