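import Mathlib
import Pool.Agent.H241R2.RBW.Four6

/-!
# Adapted hyperbolic bases and the rank one case
-/

namespace JRB3

open JRB JRB2 Matrix Module

set_option linter.unusedSectionVars false
set_option linter.unusedSimpArgs false

section bases

variable {F : Type*} [Field F] [CharZero F] {S : Matrix (Fin 4) (Fin 4) F}

theorem Hyp.ext_vec (hS : Sᵀ = S) {e e' f f' : Fin 4 → F} (h : Hyp S e e' f f')
    {X Y : Matrix (Fin 4) (Fin 4) F} (h1 : X *ᵥ e = Y *ᵥ e) (h2 : X *ᵥ e' = Y *ᵥ e') (h3 : X *ᵥ f = Y *ᵥ f)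
    (h4 : X *ᵥ f' = Y *ᵥ f') : X = Y := by
  apply mat_ext
  intro v
  rw [h.dec hS v]
  simp only [Matrix.mulVec_add, Matrix.mulVec_smul, h1, h2, h3, h4]

theorem bf_neg_right (u v : Fin 4 → F) : bf S u (-v) = -bf S u v := by
  rw [← neg_one_smul F v, bf_smul_right]; ring

theorem bf_sub_right (u v w : Fin 4 → F) : bf S u (v - w) = bf S u v - bf S u w := by
  rw [sub_eq_add_neg, bf_add_right, bf_neg_right]; ring

theorem bf_sub_left (u v w : Fin 4 → F) : bf S (u - v) w = bf S u w - bf S v w := by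
  rw [sub_eq_add_neg, ← neg_one_smul F v, bf_add_left, bf_smul_left]; ring

theorem exists_diag (hS : Sᵀ = S) (hu : IsUnit S.det) {X : Matrix (Fin 4) (Fin 4) F} (hX : adjS S X = X)
    (hne : X ≠ 0) : ∃ v, bf S v (X *ᵥ v) ≠ 0 := by
  by_contra hcon
  push Not at hcon
  apply hne
  apply mat_ext
  intro v
  rw [Matrix.zero_mulVec]
  apply bf_nondeg hu
  intro u
  have h1 := hcon (u + v)
  rw [Matrix.mulVec_add, bf_add_left, bf_add_right, bf_add_right, hcon u, hcon v, ← bf_adj hu hX v u,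
    bf_comm hS (X *ᵥ v) u] at h1
  have h2 : (2 : F) * bf S u (X *ᵥ v) = 0 := by linear_combination h1
  exact (mul_eq_zero.mp h2).resolve_left two_ne_zero

theorem ext_basis (hS : Sᵀ = S) (hu : IsUnit S.det) {a : Matrix (Fin 4) (Fin 4) F} (ha : adjS S a = a)
    (ha2 : a * a = 0) (u : Fin 4 → F) (α : F) (hα : α ≠ 0) (hαu : bf S u (a *ᵥ u) = α) :
    ∃ (e f : Fin 4 → F) (k : F), e = α⁻¹ • (a *ᵥ u) ∧ f = u - k • e ∧ bf S e f = 1 ∧ bf S e e = 0 ∧
      (a = α • E S e ∨ ∃ (α' : F) (e' f' : Fin 4 → F), α' ≠ 0 ∧ Hyp S e e' f f' ∧ a = α • E S e + α' • E S e') := by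
  have two : (2 : F) ≠ 0 := two_ne_zero
  have h5 : (2 : F) * (2 : F)⁻¹ = 1 := mul_inv_cancel₀ two
  have haa : ∀ v, a *ᵥ (a *ᵥ v) = 0 := fun v => by rw [Matrix.mulVec_mulVec, ha2, Matrix.zero_mulVec]
  set e := α⁻¹ • (a *ᵥ u) with he
  set f := u - (2⁻¹ * bf S u u) • e with hf
  have hae : a *ᵥ e = 0 := by rw [he, Matrix.mulVec_smul, haa, smul_zero]
  have haf : a *ᵥ f = α • e := by
    rw [hf, Matrix.mulVec_sub, Matrix.mulVec_smul, hae, smul_zero, sub_zero, he, smul_smul, mul_inv_cancel₀ hα,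
      one_smul]
  have hue : bf S u e = 1 := by rw [he, bf_smul_right, hαu, inv_mul_cancel₀ hα]
  have hee : bf S e e = 0 := by
    conv_lhs => rw [he]
    rw [bf_smul_left, bf_adj hu ha, hae, bf_zr, mul_zero]
  have heu : bf S e u = 1 := by rw [bf_comm hS, hue]
  have hef : bf S e f = 1 := by rw [hf, bf_sub_right, bf_smul_right, hee, heu]; ring
  have huf : bf S u f = bf S u u - (2⁻¹ * bf S u u) * 1 := by rw [hf, bf_sub_right, bf_smul_right, hue]
  have hff : bf S f f = 0 := by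
    have q : bf S f f = bf S u f - (2⁻¹ * bf S u u) * bf S e f := by
      have q' : bf S f f = bf S (u - (2⁻¹ * bf S u u) • e) f := rfl
      rw [q', bf_sub_left, bf_smul_left (2⁻¹ * bf S u u) e f]
    rw [q, huf, hef]
    linear_combination (-bf S u u) * h5
  refine ⟨e, f, _, rfl, rfl, hef, hee, ?_⟩
  by_cases h1 : a - α • E S e = 0
  · left; exact sub_eq_zero.mp h1
  right
  set a1 := a - α • E S e with ha1
  have ha1adj : adjS S a1 = a1 := by rw [ha1, map_sub, map_smul, ha, E_adj hS hu]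
  have a1e : a1 *ᵥ e = 0 := by
    rw [ha1, Matrix.sub_mulVec, Matrix.smul_mulVec, E_mulVec hS, hae, hee]; simp
  have a1f : a1 *ᵥ f = 0 := by
    rw [ha1, Matrix.sub_mulVec, Matrix.smul_mulVec, E_mulVec hS, haf, hef]; simp
  obtain ⟨v, hv⟩ := exists_diag hS hu ha1adj h1
  set w := v - bf S e v • f - bf S f v • e with hw
  have a1w : a1 *ᵥ w = a1 *ᵥ v := by
    rw [hw, Matrix.mulVec_sub, Matrix.mulVec_sub, Matrix.mulVec_smul, Matrix.mulVec_smul, a1e, a1f]; simp
  have hfe : bf S f e = 1 := by rw [bf_comm hS, hef]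
  have hew : bf S e w = 0 := by
    rw [hw, bf_sub_right, bf_sub_right, bf_smul_right, bf_smul_right, hef, hee]; ring
  have hfw : bf S f w = 0 := by
    rw [hw, bf_sub_right, bf_sub_right, bf_smul_right, bf_smul_right, hff, hfe]; ring
  set α' := bf S v (a1 *ᵥ v) with hα'
  have hww : bf S w (a1 *ᵥ w) = α' := by
    rw [a1w, hw, bf_sub_left, bf_sub_left, bf_smul_left (bf S e v) f, bf_smul_left (bf S f v) e,
      ← bf_adj hu ha1adj f v, a1f, ← bf_adj hu ha1adj e v, a1e, bf_zero_left]; ring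
  have a1a1 : ∀ x, a1 *ᵥ (a1 *ᵥ x) = 0 := by
    intro x
    have q1 : a1 *ᵥ x = a *ᵥ x - (α * bf S e x) • e := by
      rw [ha1, Matrix.sub_mulVec, Matrix.smul_mulVec, E_mulVec hS, smul_smul]
    rw [q1, Matrix.mulVec_sub, Matrix.mulVec_smul, a1e, smul_zero, sub_zero, ha1, Matrix.sub_mulVec,
      Matrix.smul_mulVec, E_mulVec hS, haa, ← bf_adj hu ha, hae, bf_zero_left]; simp
  set e' := α'⁻¹ • (a1 *ᵥ w) with he'
  set f' := w - (2⁻¹ * bf S w w) • e' with hf'
  have a1e' : a1 *ᵥ e' = 0 := by rw [he', Matrix.mulVec_smul, a1a1, smul_zero]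
  have a1f' : a1 *ᵥ f' = α' • e' := by
    rw [hf', Matrix.mulVec_sub, Matrix.mulVec_smul, a1e', smul_zero, sub_zero, he', smul_smul, mul_inv_cancel₀ hv,
      one_smul]
  have hwe' : bf S w e' = 1 := by rw [he', bf_smul_right, hww, inv_mul_cancel₀ hv]
  have he'w : bf S e' w = 1 := by rw [bf_comm hS, hwe']
  have he'e' : bf S e' e' = 0 := by
    conv_lhs => rw [he']
    rw [bf_smul_left, bf_adj hu ha1adj, a1e', bf_zr, mul_zero]
  have hee' : bf S e e' = 0 := by
    rw [he', bf_smul_right, ← bf_adj hu ha1adj, a1e, bf_zero_left, mul_zero]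
  have he'f : bf S e' f = 0 := by
    rw [he', bf_smul_left, bf_adj hu ha1adj, a1f, bf_zr, mul_zero]
  have hfe' : bf S f e' = 0 := by rw [bf_comm hS, he'f]
  have hH : Hyp S e e' f f' := by
    refine ⟨hee, hee', he'e', hff, ?_, ?_, hef, ?_, ?_, he'f⟩
    · rw [hf', bf_sub_right, bf_smul_right, hfw, hfe']; ring
    · have q : bf S f' f' = bf S w f' - (2⁻¹ * bf S w w) * bf S e' f' := by
        have q' : bf S f' f' = bf S (w - (2⁻¹ * bf S w w) • e') f' := rfl
        rw [q', bf_sub_left, bf_smul_left (2⁻¹ * bf S w w) e' f']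
      have q1 : bf S w f' = bf S w w - (2⁻¹ * bf S w w) * 1 := by
        rw [hf', bf_sub_right w w, bf_smul_right (2⁻¹ * bf S w w) w e', hwe']
      have q2 : bf S e' f' = 1 := by rw [hf', bf_sub_right, bf_smul_right, he'e', he'w]; ring
      rw [q, q1, q2]
      linear_combination (-bf S w w) * h5
    · rw [hf', bf_sub_right, bf_smul_right, he'e', he'w]; ring
    · rw [hf', bf_sub_right, bf_smul_right, hew, hee']; ring
  have ha1' : a1 = α' • E S e' := by
    apply hH.ext_vec hS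
    · rw [a1e, Matrix.smul_mulVec, E_mulVec hS, bf_comm hS, hee']; simp
    · rw [a1e', Matrix.smul_mulVec, E_mulVec hS, he'e']; simp
    · rw [a1f, Matrix.smul_mulVec, E_mulVec hS, he'f]; simp
    · rw [a1f', Matrix.smul_mulVec, E_mulVec hS, hH.e'f', one_smul]
  refine ⟨α', e', f', hv, hH, ?_⟩
  rw [← ha1', ha1]; abel

variable (N : Matrix (Fin 4) (Fin 4) F →ₗ[F] Matrix (Fin 4) (Fin 4) F) (hN : IsRB F (jmul F) N)

include hN

/-- the rank one case -/
theorem rank_one_case (hS : Sᵀ = S) (hu : IsUnit S.det) (hτ : ∀ y, adjS S (N y) = N y) (ha2 : N 1 * N 1 = 0)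
    (hne : N 1 ≠ 0) (e f : Fin 4 → F) (hef : bf S e f = 1) (α : F) (hα : α ≠ 0)
    (ha : N 1 = α • E S e) (y : Matrix (Fin 4) (Fin 4) F) : N (N (N y)) = 0 := by
  have two : (2 : F) ≠ 0 := two_ne_zero
  set c := N (N y) with hc
  have hcadj : adjS S c = c := hτ _
  have h1 := comm2 N hN ha2 y
  rw [← hc, ha] at h1
  have h2 : ∀ w, bf S e w • (c *ᵥ (c *ᵥ e)) + bf S e (c *ᵥ (c *ᵥ w)) • e = (2 * bf S (c *ᵥ e) w) • (c *ᵥ e) := by
    intro w
    have h3 := congrArg (fun X => X *ᵥ w) h1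
    simp only [mul_smul_comm, smul_mul_assoc, Matrix.add_mulVec, Matrix.smul_mulVec, ← Matrix.mulVec_mulVec,
      E_mulVec hS, Matrix.mulVec_smul] at h3
    rw [← smul_add, smul_comm (2 : F) α] at h3
    have h4 := smul_right_injective _ hα h3
    rw [h4, smul_smul, bf_adj hu hcadj]
  have h3 : ∃ l : F, c *ᵥ e = l • e := by
    by_cases hw : ∃ w, bf S e w = 0 ∧ bf S (c *ᵥ e) w ≠ 0
    · obtain ⟨w, hw1, hw2⟩ := hw
      have h4 := h2 w
      rw [hw1, zero_smul, zero_add] at h4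
      refine ⟨(2 * bf S (c *ᵥ e) w)⁻¹ * bf S e (c *ᵥ (c *ᵥ w)), ?_⟩
      rw [mul_smul, h4, smul_smul, inv_mul_cancel₀ (mul_ne_zero two hw2), one_smul]
    · push Not at hw
      refine ⟨bf S (c *ᵥ e) f, ?_⟩
      rw [← sub_eq_zero]
      apply bf_nondeg hu
      intro v
      have h4 := hw (v - bf S e v • f) (by rw [bf_sub_right, bf_smul_right, hef]; ring)
      rw [bf_sub_right, bf_smul_right] at h4
      rw [bf_sub_right, bf_smul_right, bf_comm hS v, bf_comm hS v]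
      linear_combination h4
  obtain ⟨l, hl⟩ := h3
  have h4 : N c = l • N 1 := by
    rw [hc, N_three_eq N hN ha2 y, ← hc, ha, smul_jmul, E, jmul_E hS hu e c hcadj, hl, dt_smul, dt_self,
      smul_comm (2 : F)⁻¹ l, smul_smul (2 : F)⁻¹ 2, inv_mul_cancel₀ two, one_smul, smul_comm]
  by_cases hl0 : l = 0
  · rw [h4, hl0, zero_smul]
  · exfalso
    apply hne
    apply not_three N hN (l⁻¹ • y)
    rw [map_smul, map_smul, map_smul, ← hc, h4, smul_smul, inv_mul_cancel₀ hl0, one_smul]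

omit [CharZero F] in
theorem mul_mem2 [CharZero F] (y z : Matrix (Fin 4) (Fin 4) F) : ∃ w, N (N w) = jmul F (N (N y)) (N (N z)) := by
  refine ⟨jmul F (N (N y)) z + jmul F (N y) (N z) + (jmul F (N (N z)) y + jmul F (N z) (N y)), ?_⟩
  rw [hN (N y) (N z), jmul_comm' (N y) (N (N z)), hN (N y) z, hN (N z) y]
  simp only [map_add]

end bases

end JRB3
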