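import Mathlib
import Pool.Agent.H241R2.RBW.Four7

/-!
# The rank two case: commutation and Cayley-Hamilton
-/

namespace JRB3

open JRB JRB2 Matrix Module

set_option linter.unusedSectionVars false
set_option linter.unusedSimpArgs false

/-- `R 1` has rank two, in an adapted hyperbolic basis -/
structure R2 {F : Type*} [Field F] [CharZero F] (S : Matrix (Fin 4) (Fin 4) F)
    (N : Matrix (Fin 4) (Fin 4) F →ₗ[F] Matrix (Fin 4) (Fin 4) F) (e e' f f' : Fin 4 → F) (α α' : F) : Prop where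
  hN : IsRB F (jmul F) N
  hS : Sᵀ = S
  hu : IsUnit S.det
  hτ : ∀ y, adjS S (N y) = N y
  ha2 : N 1 * N 1 = 0
  hne : N 1 ≠ 0
  h : Hyp S e e' f f'
  ha : N 1 = α • E S e + α' • E S e'
  hα : α ≠ 0
  hα' : α' ≠ 0

section ranktwo

variable {F : Type*} [Field F] [CharZero F] {S : Matrix (Fin 4) (Fin 4) F}
variable {N : Matrix (Fin 4) (Fin 4) F →ₗ[F] Matrix (Fin 4) (Fin 4) F} {e e' f f' : Fin 4 → F}
variable {α α' : F} (H : R2 S N e e' f f' α α')

include H

theorem R2.av (v : Fin 4 → F) : N 1 *ᵥ v = (α * bf S e v) • e + (α' * bf S e' v) • e' := by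
  rw [H.ha, Matrix.add_mulVec, Matrix.smul_mulVec, Matrix.smul_mulVec, E_mulVec H.hS, E_mulVec H.hS, smul_smul,
    smul_smul]

theorem R2.ae : N 1 *ᵥ e = 0 := by
  obtain ⟨t1, t2, t3, t4, t5, t6⟩ := H.h.tab H.hS
  rw [H.av, H.h.ee, t5]; simp

theorem R2.ae' : N 1 *ᵥ e' = 0 := by
  rw [H.av, H.h.ee', H.h.e'e']; simp

theorem R2.af : N 1 *ᵥ f = α • e := by
  rw [H.av, H.h.ef, H.h.e'f]; simp

theorem R2.af' : N 1 *ᵥ f' = α' • e' := by
  rw [H.av, H.h.ef', H.h.e'f']; simp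

theorem R2.zero3 (y : Matrix (Fin 4) (Fin 4) F) : P S (N (N y)) e e = 0 ∧ P S (N (N y)) e' e = 0 ∧
    P S (N (N y)) e' e' = 0 := by
  have h1 := aca N H.hN H.ha2 y
  have h2 : ∀ u v, P S (N (N y)) (N 1 *ᵥ u) (N 1 *ᵥ v) = 0 := by
    intro u v
    unfold P
    rw [bf_adj H.hu (H.hτ 1), Matrix.mulVec_mulVec, Matrix.mulVec_mulVec, h1, Matrix.zero_mulVec, bf_zr]
  have g1 := h2 f f
  have g2 := h2 f' f
  have g3 := h2 f' f'
  rw [H.af, P_sl, P_sr] at g1
  rw [H.af, H.af', P_sl, P_sr] at g2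
  rw [H.af', P_sl, P_sr] at g3
  refine ⟨?_, ?_, ?_⟩
  · exact (mul_eq_zero.mp ((mul_eq_zero.mp g1).resolve_left H.hα)).resolve_left H.hα
  · exact (mul_eq_zero.mp ((mul_eq_zero.mp g2).resolve_left H.hα')).resolve_left H.hα
  · exact (mul_eq_zero.mp ((mul_eq_zero.mp g3).resolve_left H.hα')).resolve_left H.hα'

/-- pairings of a square -/
theorem R2.sq (c : Matrix (Fin 4) (Fin 4) F) (_hc : adjS S c = c) (u v : Fin 4 → F) :
    bf S (c *ᵥ u) (c *ᵥ v) = P S c f u * P S c e v + P S c f' u * P S c e' v + P S c e u * P S c f v +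
      P S c e' u * P S c f' v := H.h.bf_dec H.hS _ _

theorem R2.sq' (c : Matrix (Fin 4) (Fin 4) F) (hc : adjS S c = c) (u v : Fin 4 → F) :
    P S (c * c) u v = P S c f u * P S c e v + P S c f' u * P S c e' v + P S c e u * P S c f v +
      P S c e' u * P S c f' v := by
  rw [← H.sq c hc u v, bf_adj H.hu hc]
  unfold P
  rw [Matrix.mulVec_mulVec]

theorem R2.comm (y : Matrix (Fin 4) (Fin 4) F) : α * P S (N (N y)) f' e = α' * P S (N (N y)) f e' := by
  have h1 := comm2 N H.hN H.ha2 y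
  obtain ⟨z1, z2, z3⟩ := H.zero3 y
  set c := N (N y) with hc
  have hcadj : adjS S c = c := H.hτ _
  have sy := fun u v => P_symm H.hS H.hu hcadj u v
  have h2 : ∀ u v, bf S (c *ᵥ u) (c *ᵥ (N 1 *ᵥ v)) + bf S (c *ᵥ (N 1 *ᵥ u)) (c *ᵥ v) =
      2 * (α * P S c e v * P S c e u + α' * P S c e' v * P S c e' u) := by
    intro u v
    have h3 := congrArg (fun X => P S X u v) h1
    simp only [P_add, P_smul] at h3
    unfold P at h3
    simp only [← Matrix.mulVec_mulVec] at h3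
    rw [← bf_adj H.hu hcadj u, ← bf_adj H.hu (H.hτ 1) u, ← bf_adj H.hu hcadj (N 1 *ᵥ u),
      ← bf_adj H.hu hcadj u (N 1 *ᵥ (c *ᵥ v)), H.av (c *ᵥ v), bf_add_right, bf_smul_right, bf_smul_right,
      bf_comm H.hS (c *ᵥ u) e, bf_comm H.hS (c *ᵥ u) e'] at h3
    exact h3
  have g1 := h2 f f
  have g2 := h2 f' f'
  rw [H.af, Matrix.mulVec_smul, bf_smul_right, bf_smul_left, H.sq c hcadj, H.sq c hcadj, sy e f, sy e' f, z1, z2] at g1
  rw [H.af', Matrix.mulVec_smul, bf_smul_right, bf_smul_left, H.sq c hcadj, H.sq c hcadj, sy e f', sy e' f', z3,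
    sy e e', z2] at g2
  have q1 : P S c f e' * (α * P S c f' e - α' * P S c f e') = 0 := by linear_combination (2 : F)⁻¹ * g1
  have q2 : P S c f' e * (α * P S c f' e - α' * P S c f e') = 0 := by linear_combination -(2 : F)⁻¹ * g2
  have q3 : (α * P S c f' e - α' * P S c f e') * (α * P S c f' e - α' * P S c f e') = 0 := by
    linear_combination α * q2 - α' * q1
  exact sub_eq_zero.mp (mul_self_eq_zero.mp q3)

theorem R2.Nc (y : Matrix (Fin 4) (Fin 4) F) : N (N (N y)) = (α * P S (N (N y)) f e) • E S e +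
    (α * P S (N (N y)) f' e) • dt S e e' + (α' * P S (N (N y)) f' e') • E S e' := by
  obtain ⟨t1, t2, t3, t4, t5, t6⟩ := H.h.tab H.hS
  obtain ⟨z1, z2, z3⟩ := H.zero3 y
  have hcm := H.comm y
  rw [N_three_eq N H.hN H.ha2 y]
  set c := N (N y) with hc
  have hcadj : adjS S c = c := H.hτ _
  have sy := fun u v => P_symm H.hS H.hu hcadj u v
  apply H.h.ext H.hS H.hu (jmul_adj H.hu _ _ (H.hτ 1) hcadj)
  · simp only [map_add, map_smul, E_adj H.hS H.hu, dt_adj H.hS H.hu]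
  all_goals
    simp only [P_act H.hu (H.hτ 1), H.ae, H.ae', H.af, H.af', P_sl, P_sr, P_z, P_zl, z1, z2, z3, P_add, P_smul,
      P_E H.hS, P_dt H.hS, t1, t2, t3, t4, t5, t6, H.h.ee, H.h.ee', H.h.e'e', H.h.ff, H.h.ff', H.h.f'f', H.h.ef,
      H.h.e'f', H.h.ef', H.h.e'f, sy e f, sy e' f, sy e f', sy e' f', sy e e']
  all_goals first | ring1 | linear_combination (-(2 : F)⁻¹) * hcm

theorem R2.det0 (y : Matrix (Fin 4) (Fin 4) F) : P S (N (N y)) f e * P S (N (N y)) f' e' -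
    P S (N (N y)) f e' * P S (N (N y)) f' e = 0 := by
  obtain ⟨w, hw⟩ := sq_mem N H.hN H.ha2 y
  obtain ⟨z1, z2, z3⟩ := H.zero3 y
  have hcadj : adjS S (N (N y)) = N (N y) := H.hτ _
  have sy := fun u v => P_symm H.hS H.hu hcadj u v
  by_contra hd
  apply H.hne
  set t := P S (N (N y)) f e + P S (N (N y)) f' e' with ht
  set d := P S (N (N y)) f e * P S (N (N y)) f' e' - P S (N (N y)) f e' * P S (N (N y)) f' e with hdd
  have e1 : N (N (t • y - w)) = t • N (N y) - N (N y) * N (N y) := by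
    rw [map_sub, map_sub, map_smul, map_smul, hw]
  have k1 : P S (N (N (t • y - w))) f e = d := by
    rw [e1, P_sub, P_smul, H.sq' _ hcadj, z1, z2, sy e f, sy e' f, ht, hdd]; ring
  have k2 : P S (N (N (t • y - w))) f' e = 0 := by
    rw [e1, P_sub, P_smul, H.sq' _ hcadj, z1, z2, sy e f', sy e' f', ht]; ring
  have k3 : P S (N (N (t • y - w))) f' e' = d := by
    rw [e1, P_sub, P_smul, H.sq' _ hcadj, z3, sy e e', z2, sy e f', sy e' f', ht, hdd]; ring
  apply not_three N H.hN (d⁻¹ • (t • y - w))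
  rw [map_smul, map_smul, map_smul, H.Nc, k1, k2, k3, H.ha, mul_zero, zero_smul, add_zero, smul_add, smul_smul,
    smul_smul, mul_comm α, mul_comm α', inv_mul_cancel_left₀ hd, inv_mul_cancel_left₀ hd]

/-- the action on the radical -/
theorem R2.ce (y : Matrix (Fin 4) (Fin 4) F) : N (N y) *ᵥ e = P S (N (N y)) f e • e + P S (N (N y)) f' e • e' := by
  obtain ⟨z1, z2, z3⟩ := H.zero3 y
  have := H.h.dec H.hS (N (N y) *ᵥ e)
  unfold P at z1 z2 ⊢
  rw [z1, z2, zero_smul, zero_smul, add_zero, add_zero] at this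
  exact this

theorem R2.ce' (y : Matrix (Fin 4) (Fin 4) F) :
    N (N y) *ᵥ e' = P S (N (N y)) f e' • e + P S (N (N y)) f' e' • e' := by
  obtain ⟨z1, z2, z3⟩ := H.zero3 y
  have h1 : P S (N (N y)) e e' = 0 := by rw [P_symm H.hS H.hu (H.hτ _), z2]
  have := H.h.dec H.hS (N (N y) *ᵥ e')
  unfold P at z3 h1 ⊢
  rw [z3, h1, zero_smul, zero_smul, add_zero, add_zero] at this
  exact this

theorem R2.ca (y : Matrix (Fin 4) (Fin 4) F) : N (N y) * N 1 = N 1 * N (N y) := by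
  have hcm := H.comm y
  have hcadj : adjS S (N (N y)) = N (N y) := H.hτ _
  have sy := fun u v => P_symm H.hS H.hu hcadj u v
  have acv : ∀ v, N 1 *ᵥ (N (N y) *ᵥ v) = (α * P S (N (N y)) e v) • e + (α' * P S (N (N y)) e' v) • e' := by
    intro v; rw [H.av]; rfl
  obtain ⟨z1, z2, z3⟩ := H.zero3 y
  have h1 : P S (N (N y)) e e' = 0 := by rw [P_symm H.hS H.hu (H.hτ _), z2]
  apply H.h.ext_vec H.hS
  · rw [← Matrix.mulVec_mulVec, ← Matrix.mulVec_mulVec, H.ae, acv, z1, z2]; simp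
  · rw [← Matrix.mulVec_mulVec, ← Matrix.mulVec_mulVec, H.ae', acv, h1, z3]; simp
  · rw [← Matrix.mulVec_mulVec, ← Matrix.mulVec_mulVec, H.af, acv, Matrix.mulVec_smul, H.ce, sy e f, sy e' f, smul_add,
      smul_smul, smul_smul, hcm]
  · rw [← Matrix.mulVec_mulVec, ← Matrix.mulVec_mulVec, H.af', acv, Matrix.mulVec_smul, H.ce', sy e f', sy e' f',
      smul_add, smul_smul, smul_smul, hcm]

theorem R2.cca (y : Matrix (Fin 4) (Fin 4) F) : ∃ t : F, N (N y) * N (N y) * N 1 = t • (N (N y) * N 1) := by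
  have hd := H.det0 y
  refine ⟨P S (N (N y)) f e + P S (N (N y)) f' e', ?_⟩
  apply H.h.ext_vec H.hS
  · simp only [← Matrix.mulVec_mulVec, Matrix.smul_mulVec, H.ae, Matrix.mulVec_zero, smul_zero]
  · simp only [← Matrix.mulVec_mulVec, Matrix.smul_mulVec, H.ae', Matrix.mulVec_zero, smul_zero]
  · rw [← Matrix.mulVec_mulVec, Matrix.smul_mulVec, ← Matrix.mulVec_mulVec, ← Matrix.mulVec_mulVec, H.af]
    simp only [Matrix.mulVec_smul, Matrix.mulVec_add, H.ce, H.ce']
    have h1 : ∀ (a b c d : F) (u v : Fin 4 → F), a * d - b * c = 0 →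
        α • (a • (a • u + c • v) + c • (b • u + d • v)) = (a + d) • α • (a • u + c • v) := by
      intro a b c d u v h
      have : α • (a • (a • u + c • v) + c • (b • u + d • v)) = (a + d) • α • (a • u + c • v) -
        (α * (a * d - b * c)) • u := by module
      rw [this, h, mul_zero, zero_smul, sub_zero]
    exact h1 _ _ _ _ _ _ hd
  · rw [← Matrix.mulVec_mulVec, Matrix.smul_mulVec, ← Matrix.mulVec_mulVec, ← Matrix.mulVec_mulVec, H.af']
    simp only [Matrix.mulVec_smul, Matrix.mulVec_add, H.ce, H.ce']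
    have h1 : ∀ (a b c d : F) (u v : Fin 4 → F), a * d - b * c = 0 →
        α' • (b • (a • u + c • v) + d • (b • u + d • v)) = (a + d) • α' • (b • u + d • v) := by
      intro a b c d u v h
      have : α' • (b • (a • u + c • v) + d • (b • u + d • v)) = (a + d) • α' • (b • u + d • v) -
        (α' * (a * d - b * c)) • v := by module
      rw [this, h, mul_zero, zero_smul, sub_zero]
    exact h1 _ _ _ _ _ _ hd

/-- the kernel of `R 1` is its image -/
theorem R2.ker (w : Fin 4 → F) (hw : N 1 *ᵥ w = 0) : ∃ w', w = N 1 *ᵥ w' := by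
  obtain ⟨t1, t2, t3, t4, t5, t6⟩ := H.h.tab H.hS
  rw [H.av] at hw
  have g1 := congrArg (bf S f) hw
  have g2 := congrArg (bf S f') hw
  simp only [bf_add_right, bf_smul_right, t1, t2, t3, t4, bf_zr] at g1 g2
  have g1' : α * bf S e w = 0 := by linear_combination g1
  have g2' : α' * bf S e' w = 0 := by linear_combination g2
  have k1 := (mul_eq_zero.mp g1').resolve_left H.hα
  have k2 := (mul_eq_zero.mp g2').resolve_left H.hα'
  refine ⟨(α⁻¹ * bf S f w) • f + (α'⁻¹ * bf S f' w) • f', ?_⟩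
  rw [Matrix.mulVec_add, Matrix.mulVec_smul, Matrix.mulVec_smul, H.af, H.af', smul_smul, smul_smul]
  conv_lhs => rw [H.h.dec H.hS w, k1, k2, zero_smul, zero_smul, add_zero, add_zero]
  rw [mul_comm (α⁻¹ * _) α, mul_comm (α'⁻¹ * _) α', mul_inv_cancel_left₀ H.hα, mul_inv_cancel_left₀ H.hα']

end ranktwo

end JRB3
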