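import Mathlib
import Pool.Agent.H241R2.RBW.Four8

/-!
# The rank two case: conclusion
-/

namespace JRB3

open JRB JRB2 Matrix Module

set_option linter.unusedSectionVars false
set_option linter.unusedSimpArgs false

section ranktwo

variable {F : Type*} [Field F] [CharZero F] {S : Matrix (Fin 4) (Fin 4) F}
variable {N : Matrix (Fin 4) (Fin 4) F →ₗ[F] Matrix (Fin 4) (Fin 4) F} {e e' f f' : Fin 4 → F}
variable {α α' : F} (H : R2 S N e e' f f' α α')

include H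

theorem R2.N3 (y : Matrix (Fin 4) (Fin 4) F) : N (N (N y)) = N (N y) * N 1 := by
  rw [N_three_eq N H.hN H.ha2 y, jmul_of_commute (H.ca y).symm, H.ca y]

theorem R2.idem_route (y : Matrix (Fin 4) (Fin 4) F) (h1 : N (N y) * N (N y) * N 1 = N (N y) * N 1)
    (h2 : N (N y) * N 1 ≠ 0) : False := by
  have hca := H.ca y
  obtain ⟨w1, hw1⟩ := sq_mem N H.hN H.ha2 y
  obtain ⟨w2, hw2⟩ := mul_mem2 N H.hN w1 y
  rw [hw1] at hw2
  have hN3 := H.N3 y
  set c := N (N y) with hc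
  rw [jmul_of_commute (by rw [mul_assoc])] at hw2
  set a := N 1 with ha
  have hz1 : (c * c - c) * a = 0 := by rw [sub_mul, h1, sub_self]
  have hz2 : a * (c * c - c) = 0 := by
    rw [← hz1, mul_sub, sub_mul, ← mul_assoc, ← hca, mul_assoc c a c, ← hca, ← mul_assoc]
  have hz : (c * c - c) * (c * c - c) = 0 := by
    apply mat_ext
    intro v
    obtain ⟨w', hw'⟩ := H.ker ((c * c - c) *ᵥ v) (by
      rw [Matrix.mulVec_mulVec, ← ha, hz2, Matrix.zero_mulVec])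
    rw [← Matrix.mulVec_mulVec, hw', ← ha, Matrix.mulVec_mulVec, hz1, Matrix.zero_mulVec, Matrix.zero_mulVec]
  obtain ⟨p, hp⟩ : ∃ p, p = c * c + c * c + c * c - (c * c * c + c * c * c) := ⟨_, rfl⟩
  have hpz : N (N (w1 + w1 + w1 - (w2 + w2))) = p := by
    simp only [map_add, map_sub, hw1, hw2, hp]
  obtain ⟨z, hz0⟩ : ∃ z, z = w1 + w1 + w1 - (w2 + w2) := ⟨_, rfl⟩
  rw [← hz0] at hpz
  have hpp : p * p = p := by
    have q : p * p - p = (c * c - c) * (c * c - c) * (c * c + c * c + c * c + c * c - c - c - c - c - 1 - 1 - 1) := by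
      rw [hp]; noncomm_ring
    rw [hz, zero_mul, sub_eq_zero] at q
    exact q
  have hpa : p * a = c * a := by
    have q : c * c * c * a = c * a := by rw [mul_assoc c c c, mul_assoc c, h1, ← mul_assoc, h1]
    rw [hp, sub_mul, add_mul, add_mul, add_mul, h1, q]; abel
  have hap := H.ca z
  rw [hpz, ← ha] at hap
  have hpadj : adjS S p = p := by rw [← hpz]; exact H.hτ _
  have haadj : adjS S a = a := H.hτ 1
  have hX : adjS S (p * a) = p * a := by
    have q := jmul_adj H.hu p a hpadj haadj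
    rw [jmul_of_commute hap] at q
    exact q
  obtain ⟨v, hv⟩ := exists_diag H.hS H.hu hX (by rw [hpa]; exact h2)
  have hppv : ∀ x, p *ᵥ (p *ᵥ x) = p *ᵥ x := fun x => by rw [Matrix.mulVec_mulVec, hpp]
  have hapv : ∀ x, p *ᵥ (a *ᵥ x) = a *ᵥ (p *ᵥ x) := fun x => by
    rw [Matrix.mulVec_mulVec, Matrix.mulVec_mulVec, hap]
  have hu1 : bf S (p *ᵥ v) (a *ᵥ (p *ᵥ v)) = bf S v ((p * a) *ᵥ v) := by
    rw [bf_adj H.hu hpadj, ← hapv, hppv, ← Matrix.mulVec_mulVec]
  obtain ⟨e2, f2, k, he2, hf2, hef2, hee2, hcase⟩ := ext_basis H.hS H.hu haadj H.ha2 (p *ᵥ v) _ hv hu1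
  rcases hcase with hr1 | ⟨α2, e2', f2', hα2, hH2, hr2⟩
  · have q := rank_one_case N H.hN H.hS H.hu H.hτ H.ha2 H.hne e2 f2 hef2 _ hv hr1 y
    rw [hN3] at q
    exact h2 q
  · have H2 : R2 S N e2 e2' f2 f2' _ α2 := ⟨H.hN, H.hS, H.hu, H.hτ, H.ha2, H.hne, hH2, hr2, hv, hα2⟩
    obtain ⟨t1, t2, t3, t4, t5, t6⟩ := H2.h.tab H.hS
    have pe : p *ᵥ e2 = e2 := by rw [he2, Matrix.mulVec_smul, hapv, hppv]
    have pf : p *ᵥ f2 = f2 := by rw [hf2, Matrix.mulVec_sub, Matrix.mulVec_smul, hppv, pe]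
    have g1 : P S p f2 e2 = 1 := by unfold P; rw [pe, t1]
    have g2 : P S p f2 e2' = 0 := by unfold P; rw [← bf_adj H.hu hpadj, pf, t4]
    have g3 := H2.det0 z
    rw [hpz, g1, g2, one_mul, zero_mul, sub_zero] at g3
    have g4 := H2.ce' z
    rw [hpz, g2, g3, zero_smul, zero_smul, add_zero] at g4
    have g5 : p *ᵥ f2' = 0 := by
      have q := H2.h.dec H.hS (p *ᵥ f2')
      rw [← bf_adj H.hu hpadj f2, ← bf_adj H.hu hpadj e2, ← bf_adj H.hu hpadj e2', pf, pe, g4, H2.h.ff', H2.h.ef',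
        bf_zero_left, zero_smul, zero_smul, zero_smul, add_zero, add_zero, zero_add] at q
      have q2 := hppv f2'
      rw [q, Matrix.mulVec_smul, g4, smul_zero] at q2
      rw [q, ← q2]
    have hpd : N (N z) = dt S e2 f2 := by
      rw [hpz]
      apply H2.h.ext_vec H.hS
      · rw [pe, dt_mulVec H.hS, t1, H2.h.ee]; simp
      · rw [g4, dt_mulVec H.hS, t4, H2.h.ee']; simp
      · rw [pf, dt_mulVec H.hS, H2.h.ff, H2.h.ef]; simp
      · rw [g5, dt_mulVec H.hS, H2.h.ff', H2.h.ef']; simp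
    exact idem_false N H.hN H.hS H.hu H.hτ H.ha2 H2.h _ α2 hv hα2 H2.ha z hpd

end ranktwo

end JRB3
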