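import Mathlib
import Pool.Agent.H241R2.RBW.Four9

/-!
# Degree four: the cube of a Rota-Baxter operator vanishes
-/

namespace JRB3

open JRB JRB2 Matrix Module

set_option linter.unusedSectionVars false
set_option linter.unusedSimpArgs false

section ranktwo

variable {F : Type*} [Field F] [CharZero F] {S : Matrix (Fin 4) (Fin 4) F}
variable {N : Matrix (Fin 4) (Fin 4) F →ₗ[F] Matrix (Fin 4) (Fin 4) F} {e e' f f' : Fin 4 → F}
variable {α α' : F} (H : R2 S N e e' f f' α α')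

include H

theorem R2.nil_core (y : Matrix (Fin 4) (Fin 4) F) (hy : adjS S y = y) (h1 : N (N y) * N (N y) * N 1 = 0)
    (v : Fin 4 → F) (hv : bf S v (N (N y) *ᵥ (N 1 *ᵥ v)) = 1) : False := by
  have two : (2 : F) ≠ 0 := two_ne_zero
  have h5 : (2 : F) * (2 : F)⁻¹ = 1 := mul_inv_cancel₀ two
  have hca := H.ca y
  have haca := aca N H.hN H.ha2 y
  obtain ⟨c, hc⟩ : ∃ c, c = N (N y) := ⟨_, rfl⟩
  obtain ⟨a, ha⟩ : ∃ a, a = N 1 := ⟨_, rfl⟩
  have hcadj : adjS S c = c := by rw [hc]; exact H.hτ _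
  have haadj : adjS S a = a := by rw [ha]; exact H.hτ _
  have ha2 := H.ha2
  rw [← hc, ← ha] at h1 hv hca haca
  rw [← ha] at ha2
  have vac : ∀ x, a *ᵥ (c *ᵥ x) = c *ᵥ (a *ᵥ x) := fun x => by
    rw [Matrix.mulVec_mulVec, Matrix.mulVec_mulVec, hca]
  have vcca : ∀ x, c *ᵥ (c *ᵥ (a *ᵥ x)) = 0 := fun x => by
    rw [Matrix.mulVec_mulVec, Matrix.mulVec_mulVec, h1, Matrix.zero_mulVec]
  have vaca : ∀ x, a *ᵥ (c *ᵥ (a *ᵥ x)) = 0 := fun x => by
    rw [Matrix.mulVec_mulVec, Matrix.mulVec_mulVec, haca, Matrix.zero_mulVec]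
  have vaa : ∀ x, a *ᵥ (a *ᵥ x) = 0 := fun x => by rw [Matrix.mulVec_mulVec, ha2, Matrix.zero_mulVec]
  obtain ⟨m, hm⟩ : ∃ m, m = bf S v (a *ᵥ v) := ⟨_, rfl⟩
  obtain ⟨v1, hv1⟩ : ∃ v1, v1 = v - (2⁻¹ * m) • (c *ᵥ v) := ⟨_, rfl⟩
  obtain ⟨e, he⟩ : ∃ e, e = c *ᵥ (a *ᵥ v1) := ⟨_, rfl⟩
  obtain ⟨e', he'⟩ : ∃ e', e' = a *ᵥ v1 := ⟨_, rfl⟩
  have he1 : e = c *ᵥ (a *ᵥ v) := by
    rw [he, hv1, Matrix.mulVec_sub, Matrix.mulVec_smul, vac, Matrix.mulVec_sub, Matrix.mulVec_smul, vcca, smul_zero,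
      sub_zero]
  have he'1 : e' = a *ᵥ v - (2⁻¹ * m) • e := by
    rw [he', hv1, Matrix.mulVec_sub, Matrix.mulVec_smul, vac, ← he1]
  have ce : c *ᵥ e = 0 := by rw [he, vcca]
  have ce' : c *ᵥ e' = e := by rw [he', he]
  have ae : a *ᵥ e = 0 := by rw [he, vaca]
  have ae' : a *ᵥ e' = 0 := by rw [he', vaa]
  have bve : bf S v1 e = 1 := by
    rw [hv1, bf_sub_left, bf_smul_left, bf_adj H.hu hcadj, ce, bf_zr, he1, hv]; ring
  have bvav : bf S v1 (a *ᵥ v) = m - 2⁻¹ * m := by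
    rw [hv1, bf_sub_left, bf_smul_left, bf_adj H.hu hcadj, hv, ← hm]; ring
  have bve' : bf S v1 e' = 0 := by
    rw [he'1, bf_sub_right, bf_smul_right, bve, bvav]
    linear_combination (-m) * h5
  have bcve' : bf S (c *ᵥ v1) e' = 1 := by rw [bf_adj H.hu hcadj, ce', bve]
  have bcve : bf S (c *ᵥ v1) e = 0 := by rw [bf_adj H.hu hcadj, ce, bf_zr]
  have bee : bf S e e = 0 := by
    have q : bf S e e = bf S (c *ᵥ (a *ᵥ v1)) e := by rw [← he]
    rw [q, bf_adj H.hu hcadj, ce, bf_zr]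
  have bee' : bf S e e' = 0 := by
    have q : bf S e e' = bf S e (a *ᵥ v1) := by rw [← he']
    rw [q, ← bf_adj H.hu haadj, ae, bf_zero_left]
  have be'e' : bf S e' e' = 0 := by
    have q : bf S e' e' = bf S e' (a *ᵥ v1) := by rw [← he']
    rw [q, ← bf_adj H.hu haadj, ae', bf_zero_left]
  have bev : bf S e v1 = 1 := by rw [bf_comm H.hS, bve]
  have be'v : bf S e' v1 = 0 := by rw [bf_comm H.hS, bve']
  have becv : bf S e (c *ᵥ v1) = 0 := by rw [bf_comm H.hS, bcve]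
  have be'cv : bf S e' (c *ᵥ v1) = 1 := by rw [bf_comm H.hS, bcve']
  have be'e : bf S e' e = 0 := by rw [bf_comm H.hS, bee']
  obtain ⟨k, hk⟩ : ∃ k, k = 2⁻¹ * bf S v1 v1 := ⟨_, rfl⟩
  obtain ⟨k1, hk1⟩ : ∃ k1, k1 = bf S v1 (c *ᵥ v1) := ⟨_, rfl⟩
  obtain ⟨k2, hk2⟩ : ∃ k2, k2 = 2⁻¹ * bf S (c *ᵥ v1) (c *ᵥ v1) := ⟨_, rfl⟩
  obtain ⟨f, hf⟩ : ∃ f, f = v1 - k • e := ⟨_, rfl⟩
  obtain ⟨f', hf'⟩ : ∃ f', f' = c *ᵥ v1 - k1 • e - k2 • e' := ⟨_, rfl⟩
  have hH : Hyp S e e' f f' := by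
    refine ⟨bee, bee', be'e', ?_, ?_, ?_, ?_, ?_, ?_, ?_⟩
    · rw [hf, bf_sub_left, bf_sub_right, bf_sub_right, bf_smul_left, bf_smul_right, bf_smul_left, bf_smul_right,
        bve, bev, bee, hk]
      linear_combination (-bf S v1 v1) * h5
    · rw [hf, hf', bf_sub_left, bf_sub_right, bf_sub_right, bf_sub_right, bf_sub_right]
      simp only [bf_smul_left, bf_smul_right, bve, bev, bee, bve', becv, bee', ← hk1]
      ring
    · rw [hf', bf_sub_left, bf_sub_left]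
      simp only [bf_smul_left, bf_smul_right, bf_sub_right, bcve, bcve', becv, be'cv, bee, bee', be'e', be'e, hk2]
      linear_combination (-bf S (c *ᵥ v1) (c *ᵥ v1)) * h5
    · rw [hf, bf_sub_right, bf_smul_right, bev, bee]; ring
    · rw [hf', bf_sub_right, bf_sub_right, bf_smul_right, bf_smul_right, be'cv, be'e, be'e']; ring
    · rw [hf', bf_sub_right, bf_sub_right, bf_smul_right, bf_smul_right, becv, bee, bee']; ring
    · rw [hf, bf_sub_right, bf_smul_right, be'v, be'e]; ring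
  obtain ⟨t1, t2, t3, t4, t5, t6⟩ := hH.tab H.hS
  have haa : N 1 = dt S e e' := by
    rw [← ha]
    apply hH.ext_vec H.hS
    · rw [ae, dt_mulVec H.hS, t5, bee]; simp
    · rw [ae', dt_mulVec H.hS, be'e', bee']; simp
    · rw [dt_mulVec H.hS, hH.e'f, hH.ef, hf, Matrix.mulVec_sub, Matrix.mulVec_smul, ae, ← he']; simp
    · rw [dt_mulVec H.hS, hH.e'f', hH.ef', hf', Matrix.mulVec_sub, Matrix.mulVec_sub, Matrix.mulVec_smul,
        Matrix.mulVec_smul, ae, ae', vac, ← he]; simp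
  have hcc : N (N y) = dt S e f' + P S c f f • E S e + P S c f' f • dt S e e' + P S c f' f' • E S e' := by
    rw [← hc]
    have q := hH.expand H.hS H.hu hcadj
    have q1 : P S c f e = 0 := by unfold P; rw [ce, bf_zr]
    have q2 : P S c f e' = 1 := by unfold P; rw [ce', t1]
    have q3 : P S c f' e = 0 := by unfold P; rw [ce, bf_zr]
    have q4 : P S c f' e' = 0 := by unfold P; rw [ce', t3]
    have q5 : P S c e e = 0 := by unfold P; rw [ce, bf_zr]
    have q6 : P S c e' e = 0 := by unfold P; rw [ce, bf_zr]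
    have q7 : P S c e' e' = 0 := by unfold P; rw [ce', be'e]
    rw [q1, q2, q3, q4, q5, q6, q7] at q
    conv_lhs => rw [q]
    module
  exact Nil.false (e := e) (e' := e') (f := f) (f' := f') (y0 := y)
    ⟨H.hN, H.hS, H.hu, H.hτ, H.ha2, hH, haa, hy, hcc⟩

theorem R2.nil_route (y : Matrix (Fin 4) (Fin 4) F) (hy : adjS S y = y) (h1 : N (N y) * N (N y) * N 1 = 0)
    (h2 : N (N y) * N 1 ≠ 0) : False := by
  have hX : adjS S (N (N y) * N 1) = N (N y) * N 1 := by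
    have q := jmul_adj H.hu (N (N y)) (N 1) (H.hτ _) (H.hτ _)
    rw [jmul_of_commute (H.ca y)] at q
    exact q
  obtain ⟨v, hv⟩ := exists_diag H.hS H.hu hX h2
  refine H.nil_core ((bf S v ((N (N y) * N 1) *ᵥ v))⁻¹ • y) (by rw [map_smul, hy]) ?_ v ?_
  · rw [map_smul, map_smul, smul_mul_assoc, mul_smul_comm, smul_mul_assoc, smul_mul_assoc, h1, smul_zero, smul_zero]
  · rw [map_smul, map_smul, Matrix.smul_mulVec, bf_smul_right, Matrix.mulVec_mulVec, inv_mul_cancel₀ hv]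

end ranktwo

section main

variable {F : Type*} [Field F] [CharZero F] {S : Matrix (Fin 4) (Fin 4) F}
variable (N : Matrix (Fin 4) (Fin 4) F →ₗ[F] Matrix (Fin 4) (Fin 4) F) (hN : IsRB F (jmul F) N)

include hN

theorem four_main (hS : Sᵀ = S) (hu : IsUnit S.det) (hτ : ∀ y, adjS S (N y) = N y) (ha2 : N 1 * N 1 = 0)
    (y : Matrix (Fin 4) (Fin 4) F) (hy : adjS S y = y) : N (N (N y)) = 0 := by
  by_cases hne : N 1 = 0
  · have h1 := general_bound N hN 1 (by rw [hne, pow_one])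
    have h2 : (N ^ (2 * 1)) y = 0 := by rw [h1]; rfl
    have h3 : N (N y) = 0 := by simpa [pow_succ] using h2
    rw [h3, map_zero]
  · obtain ⟨u, hu1⟩ := exists_diag hS hu (hτ 1) hne
    obtain ⟨e, f, k, he, hf, hef, hee, hcase⟩ := ext_basis hS hu (hτ 1) ha2 u _ hu1 rfl
    rcases hcase with hr1 | ⟨α', e', f', hα', hH, hr2⟩
    · exact rank_one_case N hN hS hu hτ ha2 hne e f hef _ hu1 hr1 y
    · have H : R2 S N e e' f f' _ α' := ⟨hN, hS, hu, hτ, ha2, hne, hH, hr2, hu1, hα'⟩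
      by_contra hcon
      rw [H.N3 y] at hcon
      obtain ⟨t, ht⟩ := H.cca y
      by_cases ht0 : t = 0
      · rw [ht0, zero_smul] at ht
        exact H.nil_route y hy ht hcon
      · refine H.idem_route (t⁻¹ • y) ?_ ?_
        · rw [map_smul, map_smul, smul_mul_assoc, mul_smul_comm, smul_mul_assoc, smul_mul_assoc, ht, smul_smul t⁻¹ t,
            inv_mul_cancel₀ ht0, one_smul, smul_mul_assoc]
        · rw [map_smul, map_smul, smul_mul_assoc]
          exact smul_ne_zero (inv_ne_zero ht0) hcon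

end main

end JRB3
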