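import Mathlib
import Pool.Agent.H241R2.RBW.Four10

/-!
# Degree four: the upper bound for self-adjoint matrices
-/

namespace JRB3

open JRB JRB2 Matrix Module

set_option linter.unusedSectionVars false

variable {F : Type*} [Field F] [CharZero F] {S : Matrix (Fin 4) (Fin 4) F}

/-- in degree four the cube of every Rota-Baxter operator of weight zero vanishes -/
theorem four_upper (hS : Sᵀ = S) (hu : IsUnit S.det)
    (R : Herm (adjS S) →ₗ[F] Herm (adjS S)) (hR : IsRB F (hermMul (adjS S) (adjS_mul hu)) R) : R ^ 3 = 0 := by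
  have hττ : ∀ x, adjS S (adjS S x) = x := adjS_adjS hS hu
  have hM := ext0_RB (adjS S) (adjS_mul hu) hττ R hR
  have hMpow := ext0_pow (adjS S) hττ R
  have hτ : ∀ y, adjS S (ext0 (adjS S) hττ R y) = ext0 (adjS S) hττ R y := fun y => (R (proj (adjS S) hττ y)).2
  set M := ext0 (adjS S) hττ R with hMdef
  have hpow := pow_bound (by norm_num : 3 ≤ 4) hS hu 4
    (fun U _ => by have := Submodule.finrank_le U; rwa [Module.finrank_fin_fun] at this) M hM hτ
  have hmin : min (4 + 1) ((4 + 1) / 2) = 2 := by norm_num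
  rw [hmin, pow_two] at hpow
  ext x : 2
  have h2 := hMpow 3 x
  rw [← h2]
  have h3 := four_main M hM hS hu hτ hpow x.1 x.2
  rw [pow_succ, pow_succ, pow_one, Module.End.mul_apply, Module.End.mul_apply, h3]; rfl

end JRB3
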